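import Mathlib

/-!
Elementary lemmas on finite-dimensional complex representations of groups:
common eigenvectors, irreducible subrepresentations and monomial bases.
-/

set_option autoImplicit false

namespace Pool.Agent.Lib.MP_6441f0_al

open Module

variable {G : Type} [Group G] {V : Type} [AddCommGroup V] [Module ℂ V]

/-- Irreducibility, spelled out: every invariant subspace is zero or everything. -/
def Irr (ρ : Representation ℂ G V) : Prop :=
  ∀ W : Submodule ℂ V, (∀ g : G, ∀ v ∈ W, ρ g v ∈ W) → W = ⊥ ∨ W = ⊤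

/-- A commuting family of operators on a nonzero invariant subspace has a common eigenvector. -/
theorem exists_common_eigenvector [FiniteDimensional ℂ V] {J : Type} (f : J → Module.End ℂ V)
    (U : Submodule ℂ V) (hU : U ≠ ⊥) (hinv : ∀ j, ∀ v ∈ U, f j v ∈ U)
    (hcomm : ∀ i j, ∀ v ∈ U, f i (f j v) = f j (f i v)) :
    ∃ v ∈ U, v ≠ 0 ∧ ∃ χ : J → ℂ, ∀ j, f j v = χ j • v := by
  classical
  obtain ⟨W, hWU, hWmin⟩ := exists_minimal_le_of_wellFoundedLT
    (fun W : Submodule ℂ V => W ≠ ⊥ ∧ ∀ j, ∀ v ∈ W, f j v ∈ W) U ⟨hU, hinv⟩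
  obtain ⟨⟨hW0, hWinv⟩, hmin⟩ := hWmin
  have hscal : ∀ j, ∃ c : ℂ, ∀ v ∈ W, f j v = c • v := by
    intro j
    haveI : Nontrivial W := Submodule.nontrivial_iff_ne_bot.mpr hW0
    let g : Module.End ℂ W := (f j).restrict (fun v hv => hWinv j v hv)
    obtain ⟨c, hc⟩ := Module.End.exists_eigenvalue g
    obtain ⟨w, hw⟩ := hc.exists_hasEigenvector
    have hw1 : f j (w : V) = c • (w : V) := by
      have := hw.apply_eq_smul
      have h2 := congrArg (fun x : W => (x : V)) this
      simpa [g] using h2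
    have hw0 : (w : V) ≠ 0 := fun h => hw.2 (Subtype.ext h)
    let W' : Submodule ℂ V := W ⊓ LinearMap.ker (f j - c • (1 : Module.End ℂ V))
    have hmem : ∀ v, v ∈ W' ↔ v ∈ W ∧ f j v = c • v := by
      intro v
      simp [W', sub_eq_zero]
    have hW' : W' ≠ ⊥ ∧ ∀ i, ∀ v ∈ W', f i v ∈ W' := by
      constructor
      · intro h
        have : (w : V) ∈ W' := (hmem _).2 ⟨w.2, hw1⟩
        rw [h] at this
        exact hw0 (by simpa using this)
      · intro i v hv
        rw [hmem] at hv ⊢
        refine ⟨hWinv i v hv.1, ?_⟩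
        rw [hcomm j i v (hWU hv.1), hv.2, map_smul]
    have hle : W ≤ W' := hmin hW' inf_le_left
    exact ⟨c, fun v hv => ((hmem v).1 (hle hv)).2⟩
  choose χ hχ using hscal
  obtain ⟨v, hvW, hv0⟩ := Submodule.exists_mem_ne_zero_of_ne_bot hW0
  exact ⟨v, hWU hvW, hv0, χ, fun j => hχ j v hvW⟩

/-- Every nonzero invariant subspace contains an irreducible subrepresentation. -/
theorem exists_irr_sub [FiniteDimensional ℂ V] (ρ : Representation ℂ G V)
    (U : Submodule ℂ V) (hU : U ≠ ⊥) (hinv : ∀ g, ∀ v ∈ U, ρ g v ∈ U) :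
    ∃ (W : Submodule ℂ V) (σ : Representation ℂ G W), W ≤ U ∧ Nontrivial W ∧ Irr σ ∧
      ∀ g (w : W), ((σ g w : W) : V) = ρ g w := by
  classical
  obtain ⟨W, hWU, hWmin⟩ := exists_minimal_le_of_wellFoundedLT
    (fun W : Submodule ℂ V => W ≠ ⊥ ∧ ∀ g, ∀ v ∈ W, ρ g v ∈ W) U ⟨hU, hinv⟩
  obtain ⟨⟨hW0, hWinv⟩, hmin⟩ := hWmin
  refine ⟨W, ρ.subrepresentation W (fun g v hv => hWinv g v hv), hWU,
    Submodule.nontrivial_iff_ne_bot.mpr hW0, ?_, fun g w => rfl⟩
  intro X hX
  by_cases h0 : X = ⊥
  · exact Or.inl h0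
  right
  have h1 : X.map W.subtype ≠ ⊥ ∧ ∀ g, ∀ v ∈ X.map W.subtype, ρ g v ∈ X.map W.subtype := by
    constructor
    · intro h
      apply h0
      rw [eq_bot_iff]
      intro x hx
      have : (x : V) ∈ X.map W.subtype := ⟨x, hx, rfl⟩
      rw [h] at this
      have h2 : (x : V) = 0 := by simpa using this
      simpa using h2
    · rintro g v ⟨x, hx, rfl⟩
      exact ⟨_, hX g x hx, rfl⟩
  have hle : W ≤ X.map W.subtype := hmin h1 (Submodule.map_subtype_le W X)
  rw [eq_top_iff]
  intro x _
  obtain ⟨y, hy, hyx⟩ := hle x.2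
  have : y = x := Subtype.ext hyx
  exact this ▸ hy

/-- Simultaneous eigenvectors with pairwise different eigenvalue functions are independent. -/
theorem linearIndependent_of_eigen {I J : Type} (f : J → Module.End ℂ V) (v : I → V)
    (hv : ∀ i, v i ≠ 0) (χ : I → J → ℂ) (hχ : ∀ i j, f j (v i) = χ i j • v i)
    (hinj : ∀ i i', i ≠ i' → ∃ j, χ i j ≠ χ i' j) : LinearIndependent ℂ v := by
  classical
  rw [linearIndependent_iff']
  intro s
  induction s using Finset.induction_on with
  | empty => intro c _ i hi; simp at hi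
  | insert k s hk ih =>
    intro c hc
    rw [Finset.sum_insert hk] at hc
    have hs : ∀ i ∈ s, c i = 0 := by
      intro i hi
      have hik : i ≠ k := fun h => hk (h ▸ hi)
      obtain ⟨j, hj⟩ := hinj i k hik
      have h1 : f j (c k • v k + ∑ i ∈ s, c i • v i) = 0 := by rw [hc, map_zero]
      have h2 : χ k j • (c k • v k + ∑ i ∈ s, c i • v i) = 0 := by rw [hc, smul_zero]
      have h3 : ∑ i ∈ s, (c i * (χ i j - χ k j)) • v i = 0 := by
        rw [map_add, map_smul, hχ, map_sum] at h1
        rw [smul_add, Finset.smul_sum] at h2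
        have h4 : ∑ i ∈ s, (c i * (χ i j - χ k j)) • v i =
            (c k • χ k j • v k + ∑ x ∈ s, f j (c x • v x)) -
              (χ k j • c k • v k + ∑ x ∈ s, χ k j • c x • v x) := by
          rw [smul_comm (c k) (χ k j), add_sub_add_left_eq_sub, ← Finset.sum_sub_distrib]
          refine Finset.sum_congr rfl fun x _ => ?_
          rw [map_smul, hχ, smul_smul, smul_smul, ← sub_smul]
          congr 1
          ring
        rw [h4, h1, h2, sub_zero]
      have h5 := ih (fun i => c i * (χ i j - χ k j)) h3 i hi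
      rcases mul_eq_zero.1 h5 with h | h
      · exact h
      · exact absurd (sub_eq_zero.1 h) hj
    intro i hi
    rcases Finset.mem_insert.1 hi with rfl | hi
    · have : ∑ x ∈ s, c x • v x = 0 := Finset.sum_eq_zero fun x hx => by rw [hs x hx, zero_smul]
      rw [this, add_zero] at hc
      exact (smul_eq_zero.1 hc).resolve_right (hv i)
    · exact hs i hi

/-- If the orbit of a line is given by independent vectors, these form a basis. -/
theorem finrank_eq_card_of_monomial {I : Type} [Fintype I] (ρ : Representation ℂ G V)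
    (hirr : Irr ρ) (v : V) (hv : v ≠ 0) (n : I → G)
    (hspan : ∀ g, ∃ i, ∃ c : ℂ, ρ g v = c • ρ (n i) v)
    (hli : LinearIndependent ℂ (fun i => ρ (n i) v)) : finrank ℂ V = Fintype.card I := by
  let W : Submodule ℂ V := Submodule.span ℂ (Set.range fun i => ρ (n i) v)
  have hmem : ∀ g, ρ g v ∈ W := by
    intro g
    obtain ⟨i, c, h⟩ := hspan g
    rw [h]
    exact W.smul_mem c (Submodule.subset_span ⟨i, rfl⟩)
  have hW : ∀ g : G, ∀ x ∈ W, ρ g x ∈ W := by
    intro g x hx
    induction hx using Submodule.span_induction with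
    | mem x hx =>
      obtain ⟨i, rfl⟩ := hx
      have : ρ g (ρ (n i) v) = ρ (g * n i) v := by simp
      simp only
      rw [this]
      exact hmem _
    | zero => simp
    | add x y _ _ hx hy => rw [map_add]; exact W.add_mem hx hy
    | smul c x _ hx => rw [map_smul]; exact W.smul_mem c hx
  have htop : W = ⊤ := by
    refine (hirr W hW).resolve_left fun h => hv ?_
    have := hmem 1
    rw [h] at this
    simpa using this
  rw [← finrank_span_eq_card hli]
  change finrank ℂ V = finrank ℂ W
  rw [htop, finrank_top]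

theorem rep_ne_zero (ρ : Representation ℂ G V) (g : G) {v : V} (hv : v ≠ 0) : ρ g v ≠ 0 := by
  intro h
  apply hv
  have : ρ g⁻¹ (ρ g v) = v := by
    rw [← Module.End.mul_apply, ← map_mul, inv_mul_cancel, map_one, Module.End.one_apply]
  rw [← this, h, map_zero]

theorem rep_mul_apply (ρ : Representation ℂ G V) (g h : G) (v : V) :
    ρ (g * h) v = ρ g (ρ h v) := by simp

/-- An eigenvalue function along a homomorphic family is an additive character. -/
theorem exists_addChar {A : Type} [AddCommGroup A] (v : V) (hv : v ≠ 0)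
    (f : A → Module.End ℂ V) (χ : A → ℂ) (hχ : ∀ a, f a v = χ a • v)
    (h0 : f 0 v = v) (hadd : ∀ a b, f (a + b) v = f a (f b v)) :
    ∃ ψ : AddChar A ℂ, ∀ a, ψ a = χ a := by
  refine ⟨⟨χ, ?_, ?_⟩, fun a => rfl⟩
  · have := hχ 0
    rw [h0] at this
    have h2 : (χ 0 - 1) • v = 0 := by rw [sub_smul, ← this, one_smul, sub_self]
    exact sub_eq_zero.1 ((smul_eq_zero.1 h2).resolve_right hv)
  · intro a b
    have := hadd a b
    rw [hχ, hχ b, map_smul, hχ a, smul_smul] at this
    have h2 : (χ (a + b) - χ b * χ a) • v = 0 := by rw [sub_smul, this, sub_self]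
    rw [sub_eq_zero.1 ((smul_eq_zero.1 h2).resolve_right hv), mul_comm]

/-- On a finite field every additive character is a shift of a fixed nontrivial one. -/
theorem exists_mulShift {K : Type} [Field K] [Fintype K] (ψ : AddChar K ℂ) (hψ : ψ ≠ 1)
    (φ : AddChar K ℂ) : ∃ a : K, ∀ x, φ x = ψ (a * x) := by
  classical
  have hinj : Function.Injective ψ.mulShift :=
    AddChar.to_mulShift_inj_of_isPrimitive (AddChar.IsPrimitive.of_ne_one hψ)
  have hbij : Function.Bijective ψ.mulShift := by
    rw [Fintype.bijective_iff_injective_and_card]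
    exact ⟨hinj, by simp⟩
  obtain ⟨a, ha⟩ := hbij.2 φ
  exact ⟨a, fun x => by rw [← ha, AddChar.mulShift_apply]⟩

theorem exists_ne_of_ne {K : Type} [Field K] (ψ : AddChar K ℂ) (hψ : ψ ≠ 1) {a b : K}
    (hab : a ≠ b) : ∃ x, ψ (a * x) ≠ ψ (b * x) := by
  have hinj : Function.Injective ψ.mulShift :=
    AddChar.to_mulShift_inj_of_isPrimitive (AddChar.IsPrimitive.of_ne_one hψ)
  by_contra h
  push Not at h
  exact hab (hinj (by ext x; simpa using h x))

end Pool.Agent.Lib.MP_6441f0_al
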