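import Mathlib
import Pool.Agent.Lib.MP_6441f0_al.RepBasic

/-!
Two general tools for the degrees of monomial representations of a finite group, and the
comparison of two ways to write down the set of character degrees.
-/

set_option autoImplicit false

namespace Pool.Agent.Lib.MP_6441f0_al

open Module

section

variable {G : Type} [Group G] {V : Type} [AddCommGroup V] [Module ℂ V]

/-- The simultaneous eigenspace of a family of group elements. -/
def eigSp {J : Type} (ρ : Representation ℂ G V) (B : J → G) (χ : J → ℂ) : Submodule ℂ V where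
  carrier := {x | ∀ j, ρ (B j) x = χ j • x}
  add_mem' := fun {x y} hx hy j => by rw [map_add, hx j, hy j, smul_add]
  zero_mem' := fun j => by simp
  smul_mem' := fun c x hx j => by rw [map_smul, hx j, smul_comm]

theorem mem_eigSp {J : Type} (ρ : Representation ℂ G V) (B : J → G) (χ : J → ℂ) (x : V) :
    x ∈ eigSp ρ B χ ↔ ∀ j, ρ (B j) x = χ j • x := Iff.rfl

/-- Degree of an irreducible representation from a monomial datum.  The family `B` has the
eigenvalues `χ` on a nonzero vector, the family `S` stabilises `χ` and is commutative up to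
members of `B` with eigenvalue one, and the elements `n i` move `χ` to different functions. -/
theorem finrank_of_datum [FiniteDimensional ℂ V] {I J L : Type} [Fintype I]
    (ρ : Representation ℂ G V) (hirr : Irr ρ) (B : J → G) (χ : J → ℂ) (S : L → G) (n : I → G)
    (v0 : V) (hv0 : v0 ≠ 0) (hB : ∀ j, ρ (B j) v0 = χ j • v0)
    (hS : ∀ l j, ∃ j', B j * S l = S l * B j' ∧ χ j' = χ j)
    (hcomm : ∀ l l', ∃ j, S l * S l' = S l' * S l * B j ∧ χ j = 1)
    (hdec : ∀ g, ∃ i l j, g = n i * (S l * B j))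
    (κ : I → J → J) (hκ : ∀ i j, B j * n i = n i * B (κ i j))
    (hinj : ∀ i i', i ≠ i' → ∃ j, χ (κ i j) ≠ χ (κ i' j)) :
    finrank ℂ V = Fintype.card I := by
  have hU0 : eigSp ρ B χ ≠ ⊥ := by
    intro h
    have hmem : v0 ∈ eigSp ρ B χ := hB
    rw [h] at hmem
    exact hv0 (by simpa using hmem)
  obtain ⟨v, hvU, hv, η, hη⟩ := exists_common_eigenvector (fun l : L => ρ (S l)) _ hU0
    (fun l x hx j => by
      obtain ⟨j', e, e'⟩ := hS l j
      rw [← rep_mul_apply, e, rep_mul_apply, hx j', e', map_smul])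
    (fun l l' x hx => by
      obtain ⟨j, e, e'⟩ := hcomm l l'
      rw [← rep_mul_apply, ← rep_mul_apply, e, rep_mul_apply, hx j, e', one_smul])
  refine finrank_eq_card_of_monomial ρ hirr v hv n ?_ ?_
  · intro g
    obtain ⟨i, l, j, e⟩ := hdec g
    refine ⟨i, χ j * η l, ?_⟩
    rw [e, rep_mul_apply, rep_mul_apply, hvU j, map_smul, hη, smul_smul, map_smul]
  · refine linearIndependent_of_eigen (fun j => ρ (B j)) _
      (fun i => rep_ne_zero ρ _ hv) (fun i j => χ (κ i j)) ?_ hinj
    intro i j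
    rw [← rep_mul_apply, hκ, rep_mul_apply, hvU, map_smul]

/-- A central family of elements acts on an irreducible representation by an additive
character. -/
theorem exists_central_char [FiniteDimensional ℂ V] {Z : Type} [AddCommGroup Z]
    (ρ : Representation ℂ G V) [Nontrivial V] (hirr : Irr ρ) (ζ : Z → G)
    (hc : ∀ z g, ζ z * g = g * ζ z) (h0 : ζ 0 = 1) (hadd : ∀ a b, ζ (a + b) = ζ a * ζ b) :
    ∃ lam : AddChar Z ℂ, ∀ z x, ρ (ζ z) x = lam z • x := by
  obtain ⟨v, -, hv, χ, hχ⟩ := exists_common_eigenvector (fun z : Z => ρ (ζ z)) ⊤ top_ne_bot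
    (fun _ _ _ => Submodule.mem_top)
    (fun i j v _ => by rw [← rep_mul_apply, ← rep_mul_apply, hc])
  obtain ⟨lam, hlam⟩ := exists_addChar v hv (fun z : Z => ρ (ζ z)) χ hχ
    (by simp [h0]) (fun a b => by simp only [hadd, rep_mul_apply])
  have hU : eigSp ρ ζ lam = ⊤ := by
    refine (hirr _ ?_).resolve_left ?_
    · intro g x hx z
      rw [← rep_mul_apply, hc, rep_mul_apply, hx z, map_smul]
    · intro h
      have : v ∈ eigSp ρ ζ lam := fun z => by rw [hlam]; exact hχ z
      rw [h] at this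
      exact hv (by simpa using this)
  refine ⟨lam, fun z x => ?_⟩
  have : x ∈ eigSp ρ ζ lam := hU ▸ Submodule.mem_top
  exact this z

/-- A family that is additive on the representation has a common eigenvector with an additive
character. -/
theorem exists_eigen_addChar [FiniteDimensional ℂ V] {A : Type} [AddCommGroup A]
    (ρ : Representation ℂ G V) [Nontrivial V] (w : A → G) (h0 : w 0 = 1)
    (hadd : ∀ a b x, ρ (w (a + b)) x = ρ (w a) (ρ (w b) x)) :
    ∃ v : V, v ≠ 0 ∧ ∃ μ : AddChar A ℂ, ∀ a, ρ (w a) v = μ a • v := by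
  obtain ⟨v0, -, hv0, χ, hχ⟩ := exists_common_eigenvector (fun a : A => ρ (w a)) ⊤
    top_ne_bot (fun _ _ _ => Submodule.mem_top)
    (fun i j v _ => by rw [← hadd, ← hadd, add_comm])
  obtain ⟨μ, hμ⟩ := exists_addChar v0 hv0 (fun a : A => ρ (w a)) χ hχ
    (by simp [h0]) (fun a b => hadd a b v0)
  exact ⟨v0, hv0, μ, fun a => by rw [hμ]; exact hχ a⟩

/-- The right regular representation on functions. -/
def regular (G : Type) [Group G] : Representation ℂ G (G → ℂ) where
  toFun g := LinearMap.funLeft ℂ ℂ (fun x => x * g)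
  map_one' := by ext f x; simp
  map_mul' g h := by ext f x; simp [mul_assoc]

/-- Existence of an irreducible representation with prescribed scalars on a normal family. -/
theorem exists_irr_scalar [Finite G] {J : Type} (B : J → G) (χ : J → ℂ) (f : G → ℂ)
    (hf : f 1 ≠ 0) (hfB : ∀ j x, f (x * B j) = χ j * f x)
    (hconj : ∀ g j, ∃ j', B j * g = g * B j' ∧ χ j' = χ j) :
    ∃ (W : Submodule ℂ (G → ℂ)) (σ : Representation ℂ G W), Nontrivial W ∧ Irr σ ∧
      ∀ j x, σ (B j) x = χ j • x := by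
  have hU0 : eigSp (regular G) B χ ≠ ⊥ := by
    intro h
    have hmem : f ∈ eigSp (regular G) B χ := by
      intro j
      ext x
      exact hfB j x
    rw [h] at hmem
    exact hf (congrFun ((Submodule.mem_bot ℂ).1 hmem) 1)
  obtain ⟨W, σ, hWU, hnt, hirr, hσ⟩ := exists_irr_sub (regular G) _ hU0
    (fun g x hx j => by
      obtain ⟨j', e, e'⟩ := hconj g j
      rw [← rep_mul_apply, e, rep_mul_apply, hx j', e', map_smul])
  refine ⟨W, σ, hnt, hirr, fun j x => Subtype.ext ?_⟩
  rw [hσ]
  exact hWU x.2 j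

end

/-- The set of dimensions of irreducible complex representations. -/
def dims (G : Type) [Group G] : Set ℕ :=
  {n : ℕ | ∃ (V : Type) (_ : AddCommGroup V) (_ : Module ℂ V)
    (_ : FiniteDimensional ℂ V) (ρ : Representation ℂ G V),
    Nontrivial V ∧ Irr ρ ∧ finrank ℂ V = n}

theorem one_mem_dims (G : Type) [Group G] : 1 ∈ dims G :=
  ⟨ℂ, inferInstance, inferInstance, inferInstance, 1, inferInstance,
    fun W _ => eq_bot_or_eq_top W, by simp⟩

theorem dims_eq (G : Type) [Group G] :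
    dims G = {n : ℕ | ∃ (V : Type) (_ : AddCommGroup V) (_ : Module ℂ V)
      (_ : FiniteDimensional ℂ V) (ρ : Representation ℂ G V),
      ρ.IsIrreducible ∧ ρ.character 1 = n} := by
  ext n
  simp only [dims, Set.mem_ofPred_eq]
  constructor
  · rintro ⟨V, i1, i2, i3, ρ, hnt, hirr, rfl⟩
    refine ⟨V, i1, i2, i3, ρ, ?_, by simp⟩
    have hbt : (⊥ : Subrepresentation ρ) ≠ ⊤ := by
      intro h
      have h' : (⊥ : Submodule ℂ V) = ⊤ := congrArg Subrepresentation.toSubmodule h
      exact bot_ne_top h'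
    have : Nontrivial (Subrepresentation ρ) := ⟨⊥, ⊤, hbt⟩
    refine ⟨fun W => ?_⟩
    rcases hirr W.toSubmodule (fun g v hv => W.apply_mem_toSubmodule g hv) with h | h
    · exact Or.inl (Subrepresentation.toSubmodule_injective h)
    · exact Or.inr (Subrepresentation.toSubmodule_injective h)
  · rintro ⟨V, i1, i2, i3, ρ, hirr, hn⟩
    refine ⟨V, i1, i2, i3, ρ, ?_, ?_, ?_⟩
    · by_contra hV
      have : Subsingleton V := not_nontrivial_iff_subsingleton.1 hV
      have hbt : (⊥ : Subrepresentation ρ) ≠ ⊤ := bot_ne_top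
      exact hbt (Subrepresentation.toSubmodule_injective (Subsingleton.elim _ _))
    · intro W hW
      rcases hirr.eq_bot_or_eq_top ⟨W, fun g v hv => hW g v hv⟩ with h | h
      · exact Or.inl (congrArg Subrepresentation.toSubmodule h)
      · exact Or.inr (congrArg Subrepresentation.toSubmodule h)
    · simpa using hn

/-- An additive character of `K^4` in coordinates. -/
theorem exists_coords4 {K : Type} [Field K] [Fintype K] (ψ : AddChar K ℂ) (hψ : ψ ≠ 1)
    (μ : AddChar (K × K × K × K) ℂ) : ∃ l0 l1 l2 l3 : K, ∀ w : K × K × K × K,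
      μ w = ψ (l0 * w.1 + l1 * w.2.1 + l2 * w.2.2.1 + l3 * w.2.2.2) := by
  obtain ⟨l0, h0⟩ := exists_mulShift ψ hψ (μ.compAddMonoidHom (AddMonoidHom.inl _ _))
  obtain ⟨l1, h1⟩ := exists_mulShift ψ hψ
    (μ.compAddMonoidHom ((AddMonoidHom.inr _ _).comp (AddMonoidHom.inl _ _)))
  obtain ⟨l2, h2⟩ := exists_mulShift ψ hψ (μ.compAddMonoidHom
    ((AddMonoidHom.inr _ _).comp ((AddMonoidHom.inr _ _).comp (AddMonoidHom.inl _ _))))
  obtain ⟨l3, h3⟩ := exists_mulShift ψ hψ (μ.compAddMonoidHom
    ((AddMonoidHom.inr _ _).comp ((AddMonoidHom.inr _ _).comp (AddMonoidHom.inr _ _))))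
  refine ⟨l0, l1, l2, l3, fun w => ?_⟩
  obtain ⟨a, b, c, d⟩ := w
  have e : ((a, b, c, d) : K × K × K × K) =
      (a, 0, 0, 0) + (0, b, 0, 0) + (0, 0, c, 0) + (0, 0, 0, d) := by simp
  simp only [AddChar.map_add_eq_mul]
  rw [e, ← h0, ← h1, ← h2, ← h3]
  simp only [AddChar.map_add_eq_mul]
  rfl

/-- An additive character of `K^2` in coordinates. -/
theorem exists_coords2 {K : Type} [Field K] [Fintype K] (ψ : AddChar K ℂ) (hψ : ψ ≠ 1)
    (μ : AddChar (K × K) ℂ) : ∃ l0 l1 : K, ∀ w : K × K, μ w = ψ (l0 * w.1 + l1 * w.2) := by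
  obtain ⟨l0, h0⟩ := exists_mulShift ψ hψ (μ.compAddMonoidHom (AddMonoidHom.inl _ _))
  obtain ⟨l1, h1⟩ := exists_mulShift ψ hψ (μ.compAddMonoidHom (AddMonoidHom.inr _ _))
  refine ⟨l0, l1, fun w => ?_⟩
  obtain ⟨a, b⟩ := w
  have e : ((a, b) : K × K) = (a, 0) + (0, b) := by simp
  simp only [AddChar.map_add_eq_mul]
  rw [e, ← h0, ← h1]
  simp only [AddChar.map_add_eq_mul]
  rfl

/-- Different arguments are separated after scaling. -/
theorem exists_scale_ne {K : Type} [Field K] (ψ : AddChar K ℂ) (hψ : ψ ≠ 1) {a b : K}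
    (hab : a ≠ b) : ∃ x, ψ (x * a) ≠ ψ (x * b) := by
  obtain ⟨x, hx⟩ := exists_ne_of_ne ψ hψ hab
  exact ⟨x, by rwa [mul_comm x, mul_comm x]⟩

theorem addChar_apply_ne_zero {A : Type} [AddCommGroup A] (ψ : AddChar A ℂ) (a : A) :
    ψ a ≠ 0 := by
  intro h0
  have := ψ.map_add_eq_mul a (-a)
  rw [add_neg_cancel, AddChar.map_zero_eq_one, h0, zero_mul] at this
  exact one_ne_zero this

end Pool.Agent.Lib.MP_6441f0_al
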