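import Mathlib
import Pool.Agent.Lib.MP_6441f0_al.Mono

/-!
For a field `K` of characteristic two the group `EG K` is an extension of an extraspecial group
on `K^2 ⊗ K^2` (squaring given by the determinant, read modulo the elements `y^2 + y`) by
`K × K`.  For a finite field of order `q` its character degrees are `1, q, q^2` and its derived
length is three.
-/

set_option autoImplicit false

namespace Pool.Agent.Lib.MP_6441f0_al

open Module

/-- The Artin-Schreier map. -/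
def wp (K : Type) [CommRing K] [CharP K 2] : K →+ K where
  toFun y := y ^ 2 + y
  map_zero' := by simp
  map_add' a b := by grind

/-- The cokernel of the Artin-Schreier map. -/
abbrev ZQ (K : Type) [CommRing K] [CharP K 2] : Type := K ⧸ (wp K).range

/-- The projection to the cokernel. -/
def TT {K : Type} [CommRing K] [CharP K 2] : K →+ ZQ K := QuotientAddGroup.mk' _

theorem TT_eq {K : Type} [CommRing K] [CharP K 2] (y : K) {A B : K} (h : A = B + (y ^ 2 + y)) :
    TT A = TT B := by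
  have : TT (y ^ 2 + y) = 0 := (QuotientAddGroup.eq_zero_iff _).2 ⟨y, rfl⟩
  rw [h, map_add, this, add_zero]

theorem TT_surj {K : Type} [CommRing K] [CharP K 2] : Function.Surjective (TT (K := K)) :=
  QuotientAddGroup.mk'_surjective _

theorem exists_TT_ne {K : Type} [Field K] [CharP K 2] [Finite K] : ∃ a : K, TT a ≠ 0 := by
  by_contra h
  push Not at h
  have hs : Function.Surjective (wp K) := fun a => (QuotientAddGroup.eq_zero_iff _).1 (h a)
  have hi : Function.Injective (wp K) := Finite.injective_iff_surjective.2 hs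
  have e : wp K 1 = wp K 0 := by
    change (1 : K) ^ 2 + 1 = 0 ^ 2 + 0
    grind
  exact one_ne_zero (hi e)

/-- The underlying type: six field coordinates and a central one. -/
@[ext] structure EG (K : Type) [CommRing K] [CharP K 2] where
  s : K
  t : K
  a : K
  b : K
  e : K
  d : K
  z : ZQ K

namespace EG

section Grp

variable {K : Type} [CommRing K] [CharP K 2]

/-- The central part of the multiplication. -/
def coc (x y : EG K) : K :=
  x.s ^ 2 * y.a * y.b + x.a * (y.d + x.s ^ 2 * y.b + x.t ^ 2 * y.e + x.s ^ 2 * x.t ^ 2 * y.a)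
    + x.b * (y.e + x.s ^ 2 * y.a) + (x.a + y.a) * x.s * y.t

instance : Mul (EG K) := ⟨fun x y =>
  ⟨x.s + y.s, x.t + y.t, x.a + y.a, x.b + (y.b + x.t ^ 2 * y.a), x.e + (y.e + x.s ^ 2 * y.a),
    x.d + (y.d + x.s ^ 2 * y.b + x.t ^ 2 * y.e + x.s ^ 2 * x.t ^ 2 * y.a) + x.s * y.t,
    x.z + y.z + TT (coc x y)⟩⟩

instance : One (EG K) := ⟨⟨0, 0, 0, 0, 0, 0, 0⟩⟩

instance : Inv (EG K) := ⟨fun x =>
  ⟨x.s, x.t, x.a, x.b + x.t ^ 2 * x.a, x.e + x.s ^ 2 * x.a,
    x.d + x.s ^ 2 * x.b + x.t ^ 2 * x.e + x.s ^ 2 * x.t ^ 2 * x.a + x.s * x.t,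
    -x.z - TT (x.a * x.b * x.s ^ 2 + x.a * x.d + x.b * x.e)⟩⟩

theorem mul_def (x y : EG K) : x * y =
  ⟨x.s + y.s, x.t + y.t, x.a + y.a, x.b + (y.b + x.t ^ 2 * y.a), x.e + (y.e + x.s ^ 2 * y.a),
    x.d + (y.d + x.s ^ 2 * y.b + x.t ^ 2 * y.e + x.s ^ 2 * x.t ^ 2 * y.a) + x.s * y.t,
    x.z + y.z + TT (coc x y)⟩ := rfl

theorem one_def : (1 : EG K) = ⟨0, 0, 0, 0, 0, 0, 0⟩ := rfl

theorem inv_def (x : EG K) : x⁻¹ =
  ⟨x.s, x.t, x.a, x.b + x.t ^ 2 * x.a, x.e + x.s ^ 2 * x.a,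
    x.d + x.s ^ 2 * x.b + x.t ^ 2 * x.e + x.s ^ 2 * x.t ^ 2 * x.a + x.s * x.t,
    -x.z - TT (x.a * x.b * x.s ^ 2 + x.a * x.d + x.b * x.e)⟩ := rfl

theorem mul_z (x y : EG K) : (x * y).z = x.z + y.z + TT (coc x y) := rfl

theorem coc_assoc (x y w : EG K) :
    TT (coc x y) + TT (coc (x * y) w) = TT (coc y w) + TT (coc x (y * w)) := by
  rw [← map_add, ← map_add]
  refine TT_eq (w.a * x.s * y.t) ?_
  simp only [coc, mul_def]
  grind

instance : Group (EG K) := Group.ofLeftAxioms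
  (fun x y w => by
    ext
    · simp only [mul_def]; grind
    · simp only [mul_def]; grind
    · simp only [mul_def]; grind
    · simp only [mul_def]; grind
    · simp only [mul_def]; grind
    · simp only [mul_def]; grind
    · simp only [mul_z]
      linear_combination (norm := abel) coc_assoc x y w)
  (fun x => by ext <;> simp [mul_def, one_def, coc])
  (fun x => by
    ext
    · simp only [mul_def, one_def, inv_def]; grind
    · simp only [mul_def, one_def, inv_def]; grind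
    · simp only [mul_def, one_def, inv_def]; grind
    · simp only [mul_def, one_def, inv_def]; grind
    · simp only [mul_def, one_def, inv_def]; grind
    · simp only [mul_def, one_def, inv_def]; grind
    · have : coc x⁻¹ x = x.a * x.b * x.s ^ 2 + x.a * x.d + x.b * x.e := by
        simp only [coc, inv_def]; grind
      rw [mul_z, this]
      simp only [one_def, inv_def]
      abel)

/-- Coordinates as an equivalence with a product. -/
def equivProd : EG K ≃ K × K × K × K × K × K × ZQ K where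
  toFun x := (x.s, x.t, x.a, x.b, x.e, x.d, x.z)
  invFun p := ⟨p.1, p.2.1, p.2.2.1, p.2.2.2.1, p.2.2.2.2.1, p.2.2.2.2.2.1, p.2.2.2.2.2.2⟩
  left_inv _ := rfl
  right_inv _ := rfl

instance [Finite K] : Finite (EG K) := Finite.of_equiv _ equivProd.symm

theorem card_dvd : Nat.card (EG K) ∣ Nat.card K ^ 7 := by
  rw [Nat.card_congr equivProd]
  simp only [Nat.card_prod]
  obtain ⟨m, hm⟩ := AddSubgroup.card_quotient_dvd_card (wp K).range
  refine ⟨m, ?_⟩
  calc Nat.card K ^ 7 = Nat.card K ^ 6 * Nat.card K := by ring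
    _ = Nat.card K ^ 6 * (Nat.card (ZQ K) * m) := by rw [← hm]
    _ = _ := by ring

/-- Lifts of the acting group. -/
def X (p : K × K) : EG K := ⟨p.1, p.2, 0, 0, 0, 0, 0⟩
/-- Coset representatives for the big case. -/
def Nn (p : K × K) : EG K := ⟨0, 0, p.1, p.2, 0, 0, 0⟩
/-- A maximal abelian subgroup of the extraspecial group. -/
def Dz (p : K × K × ZQ K) : EG K := ⟨0, 0, 0, 0, p.1, p.2.1, p.2.2⟩
/-- The centre of the extraspecial group. -/
def Zz (z : ZQ K) : EG K := ⟨0, 0, 0, 0, 0, 0, z⟩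
/-- The extraspecial group. -/
def Hh (p : (K × K × K × K) × ZQ K) : EG K :=
  ⟨0, 0, p.1.1, p.1.2.1, p.1.2.2.1, p.1.2.2.2, p.2⟩
/-- The action on the extraspecial group. -/
def ui (p : K × K) (j : (K × K × K × K) × ZQ K) : (K × K × K × K) × ZQ K :=
  ((j.1.1, j.1.2.1 + p.2 ^ 2 * j.1.1, j.1.2.2.1 + p.1 ^ 2 * j.1.1,
    j.1.2.2.2 + p.1 ^ 2 * j.1.2.1 + p.2 ^ 2 * j.1.2.2.1 + p.1 ^ 2 * p.2 ^ 2 * j.1.1),
    j.2 - TT (p.1 ^ 2 * j.1.1 * (j.1.2.1 + p.2 ^ 2 * j.1.1)))

theorem Hh_X (j : (K × K × K × K) × ZQ K) (p : K × K) : Hh j * X p = X p * Hh (ui p j) := by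
  ext <;> simp [mul_def, Hh, X, ui, coc] <;> grind

theorem X_comm (p r : K × K) :
    X p * X r = X r * X p * Hh ((0, 0, 0, p.1 * r.2 + r.1 * p.2), 0) := by
  ext <;> simp [mul_def, X, Hh, coc] <;> grind

theorem dec (u g : EG K) (hs : u.s = g.s) (ht : u.t = g.t) : ∃ j, g = u * Hh j := by
  refine ⟨(((u⁻¹ * g).a, (u⁻¹ * g).b, (u⁻¹ * g).e, (u⁻¹ * g).d), (u⁻¹ * g).z), ?_⟩
  rw [← inv_mul_eq_iff_eq_mul]
  ext
  · simp only [mul_def, inv_def, Hh]; grind
  · simp only [mul_def, inv_def, Hh]; grind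
  all_goals rfl

theorem Dz_mul (g : EG K) (j : K × K × ZQ K) :
    Dz j * g = g * Dz (j.1, j.2.1 + g.t ^ 2 * j.1, j.2.2 - TT (g.a * j.2.1 + g.b * j.1)) := by
  ext
  · simp [mul_def, Dz]
  · simp [mul_def, Dz]
  · simp [mul_def, Dz]
  · simp [mul_def, Dz]
  · simp [mul_def, Dz, add_comm]
  · simp only [mul_def, Dz]; grind
  · have e1 : coc (Dz j) g = 0 := by simp [coc, Dz]
    have e2 : coc g (Dz (j.1, j.2.1 + g.t ^ 2 * j.1, j.2.2 - TT (g.a * j.2.1 + g.b * j.1))) =
        g.a * j.2.1 + g.b * j.1 := by simp only [coc, Dz]; grind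
    rw [mul_z, mul_z, e1, e2, map_zero]
    simp only [Dz]
    abel

theorem Zz_comm (z : ZQ K) (g : EG K) : Zz z * g = g * Zz z := by
  ext <;> simp [mul_def, Zz, coc, add_comm]

theorem mul_Zz (g : EG K) (z : ZQ K) : g * Zz z = ⟨g.s, g.t, g.a, g.b, g.e, g.d, g.z + z⟩ := by
  ext <;> simp [mul_def, Zz, coc]

end Grp

section Reps

variable {K : Type} [Field K] [CharP K 2] [Fintype K] {V : Type} [AddCommGroup V] [Module ℂ V]
  [FiniteDimensional ℂ V]

omit [Fintype K] in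
theorem exists_central (ρ : Representation ℂ (EG K) V) [Nontrivial V] (hirr : Irr ρ) :
    ∃ lam : AddChar (ZQ K) ℂ, ∀ z x, ρ (Zz z) x = lam z • x :=
  exists_central_char ρ hirr Zz Zz_comm rfl (fun a b => by rw [mul_Zz]; rfl)

theorem finrank_big (ρ : Representation ℂ (EG K) V) [Nontrivial V]
    (hirr : Irr ρ) (lam : AddChar (ZQ K) ℂ) (hlam : lam ≠ 1)
    (hz : ∀ z x, ρ (Zz z) x = lam z • x) : finrank ℂ V = Fintype.card K ^ 2 := by
  let ψ : AddChar K ℂ := lam.compAddMonoidHom (-(TT (K := K)))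
  have hψa : ∀ x, ψ x = lam (-TT x) := fun x => rfl
  have hψ : ψ ≠ 1 := by
    intro h
    apply hlam
    ext z
    obtain ⟨x, hx⟩ := TT_surj (-z)
    have := hψa x
    rw [h, hx, neg_neg] at this
    exact this.symm
  obtain ⟨v0, hv0, μ, hμ⟩ := exists_eigen_addChar ρ (fun p : K × K => Dz (p.1, p.2, 0)) rfl
    (fun a b x => by
      rw [← rep_mul_apply]
      congr 2
      ext <;> simp [mul_def, Dz, coc])
  obtain ⟨α, β, hc⟩ := exists_coords2 ψ hψ μ
  have hD : ∀ j : K × K × ZQ K,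
      ρ (Dz j) v0 = lam (j.2.2 - TT (α * j.1 + β * j.2.1)) • v0 := by
    intro j
    have e : Dz j = Dz (j.1, j.2.1, 0) * Zz j.2.2 := by
      rw [mul_Zz]; simp [Dz]
    rw [e, rep_mul_apply, hz, map_smul, hμ (j.1, j.2.1), hc, smul_smul, hψa,
      ← AddChar.map_add_eq_mul, sub_eq_add_neg]
  have := finrank_of_datum ρ hirr Dz (fun j => lam j.2.2) X Nn (ρ (Nn (β, α)) v0)
    (rep_ne_zero ρ _ hv0) ?_ ?_ ?_ ?_ _ (fun i j => Dz_mul (Nn i) j) ?_
  · rw [this, Fintype.card_prod, sq]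
  · intro j
    rw [← rep_mul_apply, Dz_mul, rep_mul_apply, hD, map_smul]
    congr 2
    simp only [Nn]
    rw [sub_sub, ← map_add, sub_eq_self, ← map_zero TT]
    congr 1
    grind
  · intro l j
    exact ⟨_, Dz_mul (X l) j, by simp [X]⟩
  · intro l l'
    exact ⟨(0, l.1 * l'.2 + l'.1 * l.2, 0), X_comm l l', by simp⟩
  · intro g
    refine ⟨(g.a, g.b), (g.s, g.t),
      (g.e, g.d + g.t ^ 2 * g.e, g.z - TT (g.a * g.d + g.b * g.e)), ?_⟩
    ext
    · simp [mul_def, Dz, X, Nn]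
    · simp [mul_def, Dz, X, Nn]
    · simp [mul_def, Dz, X, Nn]
    · simp [mul_def, Dz, X, Nn]
    · simp [mul_def, Dz, X, Nn]
    · simp only [mul_def, Dz, X, Nn]; grind
    · have e1 : coc (X (g.s, g.t))
          (Dz (g.e, g.d + g.t ^ 2 * g.e, g.z - TT (g.a * g.d + g.b * g.e))) = 0 := by
        simp [coc, Dz, X]
      have e2 : coc (Nn (g.a, g.b)) (X (g.s, g.t) *
          Dz (g.e, g.d + g.t ^ 2 * g.e, g.z - TT (g.a * g.d + g.b * g.e))) =
          g.a * g.d + g.b * g.e := by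
        simp only [coc, mul_def, Dz, X, Nn]; grind
      rw [mul_z, mul_z, e1, e2, map_zero]
      simp only [Dz, X, Nn]
      abel
  · intro i i' hii
    by_cases h1 : i.1 = i'.1
    · have h2' : i.2 ≠ i'.2 := fun h => hii (Prod.ext h1 h)
      obtain ⟨x, hx⟩ := exists_ne_of_ne ψ hψ h2'
      exact ⟨(x, 0, 0), by simpa [Nn, hψa] using hx⟩
    · obtain ⟨x, hx⟩ := exists_ne_of_ne ψ hψ h1
      exact ⟨(0, x, 0), by simpa [Nn, hψa] using hx⟩

theorem exists_weight (ψ : AddChar K ℂ) (hψ : ψ ≠ 1) (ρ : Representation ℂ (EG K) V)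
    [Nontrivial V] (hz : ∀ z x, ρ (Zz z) x = x) :
    ∃ (v : V) (l0 l1 l2 l3 : K), v ≠ 0 ∧ ∀ j : (K × K × K × K) × ZQ K, ρ (Hh j) v =
      ψ (l0 * j.1.1 + l1 * j.1.2.1 + l2 * j.1.2.2.1 + l3 * j.1.2.2.2) • v := by
  obtain ⟨v0, hv0, μ, hμ⟩ := exists_eigen_addChar ρ (fun w : K × K × K × K => Hh (w, 0)) rfl
    (fun a b x => by
      have e : Hh (a, 0) * Hh (b, 0) = Hh (a + b, 0) * Zz (TT (coc (Hh (a, 0)) (Hh (b, 0)))) := by
        rw [mul_Zz]
        ext <;> simp [mul_def, Hh]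
      rw [← rep_mul_apply, e, rep_mul_apply, hz])
  obtain ⟨l0, l1, l2, l3, hc⟩ := exists_coords4 ψ hψ μ
  refine ⟨v0, l0, l1, l2, l3, hv0, fun j => ?_⟩
  have e : Hh j = Hh (j.1, 0) * Zz j.2 := by
    rw [mul_Zz]; simp [Hh]
  rw [e, rep_mul_apply, hz, hμ, hc]

omit [Fintype K] in
theorem sq_inj {x y : K} (h : x ^ 2 = y ^ 2) : x = y := by
  have : (x - y) ^ 2 = 0 := by grind
  exact sub_eq_zero.1 (pow_eq_zero_iff two_ne_zero |>.1 this)

theorem finrank_top (ψ : AddChar K ℂ) (hψ : ψ ≠ 1)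
    (ρ : Representation ℂ (EG K) V) (hirr : Irr ρ) (v : V) (l0 l1 l2 l3 : K) (hv : v ≠ 0)
    (hw : ∀ j : (K × K × K × K) × ZQ K, ρ (Hh j) v =
      ψ (l0 * j.1.1 + l1 * j.1.2.1 + l2 * j.1.2.2.1 + l3 * j.1.2.2.2) • v) (h3 : l3 ≠ 0) :
    finrank ℂ V = Fintype.card K ^ 2 := by
  have := finrank_of_datum ρ hirr Hh _ (fun _ : Unit => 1) X v hv hw ?_ ?_ ?_ _
    (fun i j => Hh_X j i) ?_
  · rw [this, Fintype.card_prod, sq]
  · intro l j
    exact ⟨j, by simp, rfl⟩
  · intro l l'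
    exact ⟨0, (mul_one _).symm, by simp⟩
  · intro g
    obtain ⟨j, hj⟩ := dec (X (g.s, g.t)) g rfl rfl
    exact ⟨_, (), j, by rw [one_mul]; exact hj⟩
  · intro i i' hii
    by_cases h1 : i.1 = i'.1
    · have h2' : i.2 ≠ i'.2 := fun h => hii (Prod.ext h1 h)
      obtain ⟨x, hx⟩ := exists_scale_ne ψ hψ
        (a := l2 + i.2 ^ 2 * l3) (b := l2 + i'.2 ^ 2 * l3)
        (fun h => h2' (sq_inj (mul_right_cancel₀ h3 (add_left_cancel h))))
      refine ⟨((0, 0, x, 0), 0), ?_⟩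
      simp only [ui]
      convert hx using 2 <;> ring
    · obtain ⟨x, hx⟩ := exists_scale_ne ψ hψ
        (a := l1 + i.1 ^ 2 * l3) (b := l1 + i'.1 ^ 2 * l3)
        (fun h => h1 (sq_inj (mul_right_cancel₀ h3 (add_left_cancel h))))
      refine ⟨((0, x, 0, 0), 0), ?_⟩
      simp only [ui]
      convert hx using 2 <;> ring

theorem finrank_mid (ψ : AddChar K ℂ) (hψ : ψ ≠ 1)
    (ρ : Representation ℂ (EG K) V) (hirr : Irr ρ) (v : V) (l0 l1 l2 : K) (hv : v ≠ 0)
    (hw : ∀ j : (K × K × K × K) × ZQ K, ρ (Hh j) v =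
      ψ (l0 * j.1.1 + l1 * j.1.2.1 + l2 * j.1.2.2.1 + 0 * j.1.2.2.2) • v)
    (h12 : l1 ≠ 0 ∨ l2 ≠ 0) : finrank ℂ V = Fintype.card K := by
  have hsq : Function.Surjective (fun x : K => x ^ 2) :=
    Finite.injective_iff_surjective.1 (fun x y h => sq_inj h)
  obtain ⟨m1, rfl⟩ := hsq l1
  obtain ⟨m2, rfl⟩ := hsq l2
  simp only at hw h12
  obtain ⟨α, β, hαβ⟩ : ∃ α β : K, α * m2 + β * m1 = 1 := by
    rcases h12 with h | h
    · have : m1 ≠ 0 := fun h0 => h (by simp [h0])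
      exact ⟨0, m1⁻¹, by simp [this]⟩
    · have : m2 ≠ 0 := fun h0 => h (by simp [h0])
      exact ⟨m2⁻¹, 0, by simp [this]⟩
  refine finrank_of_datum ρ hirr Hh _ (fun r : K => X (r * m1, r * m2))
    (fun r : K => X (r * α, r * β)) v hv hw
    ?_ ?_ ?_ _ (fun i j => Hh_X j (i * α, i * β)) ?_
  · intro l j
    refine ⟨_, Hh_X j _, ?_⟩
    simp only [ui]
    congr 1
    grind
  · intro l l'
    exact ⟨_, X_comm _ _, by simp⟩
  · intro g
    obtain ⟨j, hj⟩ := dec (X ((g.s * m2 + g.t * m1) * α, (g.s * m2 + g.t * m1) * β) *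
      X ((g.s * β + g.t * α) * m1, (g.s * β + g.t * α) * m2)) g
      (by simp only [mul_def, X]; grind) (by simp only [mul_def, X]; grind)
    exact ⟨_, _, j, by rw [← mul_assoc]; exact hj⟩
  · intro i i' hii
    obtain ⟨x, hx⟩ := exists_scale_ne ψ hψ (a := l0 + i ^ 2) (b := l0 + i' ^ 2)
      (fun h => hii (sq_inj (add_left_cancel h)))
    refine ⟨((x, 0, 0, 0), 0), ?_⟩
    simp only [ui]
    convert hx using 2 <;> grind

omit [Fintype K] in
theorem finrank_bot (ψ : AddChar K ℂ)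
    (ρ : Representation ℂ (EG K) V) (hirr : Irr ρ) (v : V) (l0 : K) (hv : v ≠ 0)
    (hw : ∀ j : (K × K × K × K) × ZQ K, ρ (Hh j) v =
      ψ (l0 * j.1.1 + 0 * j.1.2.1 + 0 * j.1.2.2.1 + 0 * j.1.2.2.2) • v) :
    finrank ℂ V = 1 := by
  have := finrank_of_datum ρ hirr Hh _ X (fun _ : Unit => 1) v hv hw
    ?_ ?_ ?_ (fun _ j => j) (fun i j => by simp) ?_
  · simpa using this
  · intro l j
    refine ⟨_, Hh_X j l, ?_⟩
    simp only [ui]
    congr 1
    ring
  · intro l l'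
    exact ⟨_, X_comm _ _, by simp⟩
  · intro g
    obtain ⟨j, hj⟩ := dec (X (g.s, g.t)) g rfl rfl
    exact ⟨(), _, j, by rw [one_mul]; exact hj⟩
  · intro i i' hii
    exact absurd rfl hii

end Reps

/-- The character degrees of `EG K`. -/
theorem dims_EG {K : Type} [Field K] [CharP K 2] [Fintype K] :
    dims (EG K) = {1, Fintype.card K, Fintype.card K ^ 2} := by
  obtain ⟨ψ, hψ1⟩ := (AddChar.exists_apply_ne_zero (a := (1 : K))).2 one_ne_zero
  have hψ : ψ ≠ 1 := fun h => hψ1 (by simp [h])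
  ext n
  simp only [Set.mem_insert_iff, Set.mem_singleton_iff]
  constructor
  · rintro ⟨V, _, _, _, ρ, hnt, hirr, rfl⟩
    obtain ⟨lam, hlam⟩ := exists_central ρ hirr
    by_cases h : lam = 1
    · obtain ⟨v, l0, l1, l2, l3, hv, hw⟩ := exists_weight ψ hψ ρ
        (fun z x => by rw [hlam, h]; simp)
      by_cases h3 : l3 = 0
      · subst h3
        by_cases h12 : l1 ≠ 0 ∨ l2 ≠ 0
        · exact Or.inr (Or.inl (finrank_mid ψ hψ ρ hirr v l0 l1 l2 hv hw h12))
        · push Not at h12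
          obtain ⟨rfl, rfl⟩ := h12
          exact Or.inl (finrank_bot ψ ρ hirr v l0 hv hw)
      · exact Or.inr (Or.inr (finrank_top ψ hψ ρ hirr v l0 l1 l2 l3 hv hw h3))
    · exact Or.inr (Or.inr (finrank_big ρ hirr lam h hlam))
  · rintro (rfl | rfl | rfl)
    · exact one_mem_dims _
    · obtain ⟨W, σ, hnt, hirr, hσ⟩ := exists_irr_scalar (G := EG K) Dz (fun j => ψ j.1)
        (fun x => ψ x.e) (addChar_apply_ne_zero ψ _)
        (fun j x => by
          rw [← AddChar.map_add_eq_mul]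
          congr 1
          simp only [mul_def, Dz]
          ring)
        (fun g j => ⟨_, Dz_mul g j, rfl⟩)
      refine ⟨W, inferInstance, inferInstance, inferInstance, σ, hnt, hirr, ?_⟩
      obtain ⟨v, l0, l1, l2, l3, hv, hw⟩ := exists_weight ψ hψ σ
        (fun z x => (hσ (0, 0, z) x).trans (by simp))
      have key : ∀ e d : K, ψ (l2 * e + l3 * d) = ψ e := by
        intro e d
        have a1 := hw ((0, 0, e, d), 0)
        have a2 : σ (Hh ((0, 0, e, d), 0)) v = ψ e • v := hσ (e, d, 0) v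
        rw [a2] at a1
        have a3 := smul_left_injective ℂ hv a1
        simpa using a3.symm
      have h3 : l3 = 0 := by
        by_contra h
        obtain ⟨x, hx⟩ := exists_ne_of_ne ψ hψ h
        exact hx (by simpa using key 0 x)
      have hl2 : l2 ≠ 0 := by
        intro h
        have := key 1 0
        rw [h] at this
        exact hψ1 (by simpa using this.symm)
      subst h3
      exact finrank_mid ψ hψ σ hirr v l0 l1 l2 hv hw (Or.inr hl2)
    · obtain ⟨a0, ha0⟩ := exists_TT_ne (K := K)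
      obtain ⟨lam, hlam1⟩ := (AddChar.exists_apply_ne_zero (a := TT a0)).2 ha0
      have hlam : lam ≠ 1 := fun h => hlam1 (by simp [h])
      obtain ⟨W, σ, hnt, hirr, hσ⟩ := exists_irr_scalar (G := EG K) Zz (fun j => lam j)
        (fun x => lam x.z) (addChar_apply_ne_zero lam _)
        (fun j x => by rw [← AddChar.map_add_eq_mul, mul_Zz, add_comm])
        (fun g j => ⟨j, Zz_comm j g, rfl⟩)
      exact ⟨W, inferInstance, inferInstance, inferInstance, σ, hnt, hirr,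
        finrank_big σ hirr lam hlam hσ⟩

open scoped commutatorElement in
/-- The second derived subgroup of `EG K` is nontrivial. -/
theorem derived_EG {K : Type} [Field K] [CharP K 2] [Finite K] :
    derivedSeries (EG K) 2 ≠ ⊥ := by
  intro h
  obtain ⟨a0, ha0⟩ := exists_TT_ne (K := K)
  have m1 : ∀ g g' : EG K, ⁅g, g'⁆ ∈ derivedSeries (EG K) 1 := by
    intro g g'
    rw [derivedSeries_succ, derivedSeries_zero]
    exact Subgroup.commutator_mem_commutator (Subgroup.mem_top g) (Subgroup.mem_top g')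
  have m2 : ⁅⁅X ((0 : K), (1 : K)), Nn (a0, (0 : K))⁆,
      ⁅X ((1 : K), (0 : K)), Nn ((1 : K), (0 : K))⁆⁆ ∈ derivedSeries (EG K) 2 := by
    rw [derivedSeries_succ]
    exact Subgroup.commutator_mem_commutator (m1 _ _) (m1 _ _)
  rw [h, Subgroup.mem_bot, commutatorElement_eq_one_iff_mul_comm] at m2
  have hz := congrArg EG.z m2
  have e1 : coc ⁅X ((0 : K), (1 : K)), Nn (a0, (0 : K))⁆
      ⁅X ((1 : K), (0 : K)), Nn ((1 : K), (0 : K))⁆ = a0 := by
    simp only [coc, commutatorElement_def, mul_def, inv_def, X, Nn]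
    grind
  have e2 : coc ⁅X ((1 : K), (0 : K)), Nn ((1 : K), (0 : K))⁆
      ⁅X ((0 : K), (1 : K)), Nn (a0, (0 : K))⁆ = 0 := by
    simp only [coc, commutatorElement_def, mul_def, inv_def, X, Nn]
    grind
  rw [mul_z, mul_z, e1, e2, map_zero, add_zero, add_comm] at hz
  apply ha0
  linear_combination (norm := abel) hz

end EG

end Pool.Agent.Lib.MP_6441f0_al
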