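import Mathlib
import Pool.Agent.Lib.MP_6441f0_al.Mono

/-!
The group `OG K` is the semidirect product of the Heisenberg group on `K^4` with the group of
the symplectic maps `1 + 2 t N + 2 t^2 N^2 + c N^3`, where `N` is a regular nilpotent element.
For a finite field of odd order `q` its character degrees are `1, q, q^2` and its derived
length is three.
-/

set_option autoImplicit false

namespace Pool.Agent.Lib.MP_6441f0_al

open Module

/-- The underlying type: seven coordinates. -/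
@[ext] structure OG (K : Type) where
  t : K
  c : K
  a : K
  b : K
  e : K
  d : K
  z : K

namespace OG

section Grp

variable {K : Type} [CommRing K]

instance : Mul (OG K) := ⟨fun x y =>
  ⟨x.t + y.t, x.c + y.c + 4 * x.t * y.t * (x.t + y.t), x.a + y.a, x.b + (y.b + 2 * x.t * y.a),
    x.e + (y.e + 2 * x.t * y.b + 2 * x.t ^ 2 * y.a),
    x.d + (y.d + 2 * x.t * y.e + 2 * x.t ^ 2 * y.b + x.c * y.a),
    x.z + y.z + ((x.a * (y.d + 2 * x.t * y.e + 2 * x.t ^ 2 * y.b + x.c * y.a) - x.d * y.a)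
      - (x.b * (y.e + 2 * x.t * y.b + 2 * x.t ^ 2 * y.a) - x.e * (y.b + 2 * x.t * y.a)))⟩⟩

instance : One (OG K) := ⟨⟨0, 0, 0, 0, 0, 0, 0⟩⟩

instance : Inv (OG K) := ⟨fun x =>
  ⟨-x.t, -x.c, -x.a, -(x.b - 2 * x.t * x.a), -(x.e - 2 * x.t * x.b + 2 * x.t ^ 2 * x.a),
    -(x.d - 2 * x.t * x.e + 2 * x.t ^ 2 * x.b - x.c * x.a), -x.z⟩⟩

theorem mul_def (x y : OG K) : x * y =
  ⟨x.t + y.t, x.c + y.c + 4 * x.t * y.t * (x.t + y.t), x.a + y.a, x.b + (y.b + 2 * x.t * y.a),
    x.e + (y.e + 2 * x.t * y.b + 2 * x.t ^ 2 * y.a),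
    x.d + (y.d + 2 * x.t * y.e + 2 * x.t ^ 2 * y.b + x.c * y.a),
    x.z + y.z + ((x.a * (y.d + 2 * x.t * y.e + 2 * x.t ^ 2 * y.b + x.c * y.a) - x.d * y.a)
      - (x.b * (y.e + 2 * x.t * y.b + 2 * x.t ^ 2 * y.a) - x.e * (y.b + 2 * x.t * y.a)))⟩ := rfl

theorem one_def : (1 : OG K) = ⟨0, 0, 0, 0, 0, 0, 0⟩ := rfl

theorem inv_def (x : OG K) : x⁻¹ =
  ⟨-x.t, -x.c, -x.a, -(x.b - 2 * x.t * x.a), -(x.e - 2 * x.t * x.b + 2 * x.t ^ 2 * x.a),
    -(x.d - 2 * x.t * x.e + 2 * x.t ^ 2 * x.b - x.c * x.a), -x.z⟩ := rfl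

instance : Group (OG K) := Group.ofLeftAxioms
  (fun x y z => by ext <;> simp only [mul_def] <;> ring)
  (fun x => by ext <;> simp only [mul_def, one_def] <;> ring)
  (fun x => by ext <;> simp only [mul_def, one_def, inv_def] <;> ring)

/-- Coordinates as an equivalence with a product. -/
def equivProd : OG K ≃ K × K × K × K × K × K × K where
  toFun x := (x.t, x.c, x.a, x.b, x.e, x.d, x.z)
  invFun p := ⟨p.1, p.2.1, p.2.2.1, p.2.2.2.1, p.2.2.2.2.1, p.2.2.2.2.2.1, p.2.2.2.2.2.2⟩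
  left_inv _ := rfl
  right_inv _ := rfl

instance [Finite K] : Finite (OG K) := Finite.of_equiv _ equivProd.symm

omit [CommRing K] in
theorem card : Nat.card (OG K) = Nat.card K ^ 7 := by
  rw [Nat.card_congr equivProd]
  simp only [Nat.card_prod]
  ring

/-- The acting group. -/
def X (p : K × K) : OG K := ⟨p.1, p.2, 0, 0, 0, 0, 0⟩
/-- Coset representatives for the big case. -/
def Nn (p : K × K) : OG K := ⟨0, 0, p.1, p.2, 0, 0, 0⟩
/-- A maximal abelian subgroup of the Heisenberg group. -/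
def Dz (p : K × K × K) : OG K := ⟨0, 0, 0, 0, p.1, p.2.1, p.2.2⟩
/-- The centre. -/
def Zz (z : K) : OG K := ⟨0, 0, 0, 0, 0, 0, z⟩
/-- The Heisenberg group. -/
def Hh (p : (K × K × K × K) × K) : OG K := ⟨0, 0, p.1.1, p.1.2.1, p.1.2.2.1, p.1.2.2.2, p.2⟩
/-- The inverse action on vectors. -/
def ui (p : K × K) (w : K × K × K × K) : K × K × K × K :=
  (w.1, w.2.1 - 2 * p.1 * w.1, w.2.2.1 - 2 * p.1 * w.2.1 + 2 * p.1 ^ 2 * w.1,
    w.2.2.2 - 2 * p.1 * w.2.2.1 + 2 * p.1 ^ 2 * w.2.1 - p.2 * w.1)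

theorem Hh_X (j : (K × K × K × K) × K) (p : K × K) :
    Hh j * X p = X p * Hh (ui p j.1, j.2) := by
  ext <;> simp only [mul_def, Hh, X, ui] <;> ring

theorem X_comm (p r : K × K) : X p * X r = X r * X p := by
  ext <;> simp only [mul_def, X] <;> ring

theorem dec (g : OG K) :
    g = X (g.t, g.c) * Hh (ui (g.t, g.c) (g.a, g.b, g.e, g.d), g.z) := by
  ext <;> simp only [mul_def, Hh, X, ui] <;> ring

theorem Dz_Nn (i : K × K) (j : K × K × K) :
    Dz j * Nn i = Nn i * Dz (j.1, j.2.1, j.2.2 + (2 * i.2 * j.1 - 2 * i.1 * j.2.1)) := by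
  ext <;> simp only [mul_def, Dz, Nn] <;> ring

end Grp

section Reps

variable {K : Type} [Field K] [Fintype K] {V : Type} [AddCommGroup V] [Module ℂ V]
  [FiniteDimensional ℂ V]

omit [Fintype K] in
theorem exists_central (ρ : Representation ℂ (OG K) V) [Nontrivial V] (hirr : Irr ρ) :
    ∃ lam : AddChar K ℂ, ∀ z x, ρ (Zz z) x = lam z • x :=
  exists_central_char ρ hirr Zz
    (fun z g => by ext <;> simp only [mul_def, Zz] <;> ring) rfl
    (fun a b => by ext <;> simp only [mul_def, Zz] <;> ring)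

theorem finrank_big (h2 : (2 : K) ≠ 0) (ρ : Representation ℂ (OG K) V) [Nontrivial V]
    (hirr : Irr ρ) (lam : AddChar K ℂ) (hlam : lam ≠ 1) (hz : ∀ z x, ρ (Zz z) x = lam z • x) :
    finrank ℂ V = Fintype.card K ^ 2 := by
  obtain ⟨v0, hv0, μ, hμ⟩ := exists_eigen_addChar ρ (fun p : K × K => Dz (p.1, p.2, 0)) rfl
    (fun a b x => by
      rw [← rep_mul_apply]
      congr 2
      ext <;> simp only [mul_def, Dz, Prod.fst_add, Prod.snd_add] <;> ring)
  obtain ⟨α, β, hc⟩ := exists_coords2 lam hlam μ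
  have hD : ∀ j : K × K × K, ρ (Dz j) v0 = lam (α * j.1 + β * j.2.1 + j.2.2) • v0 := by
    intro j
    have e : Dz j = Dz (j.1, j.2.1, 0) * Zz j.2.2 := by
      ext <;> simp only [mul_def, Dz, Zz] <;> ring
    rw [e, rep_mul_apply, hz, map_smul, hμ (j.1, j.2.1), hc, smul_smul, mul_comm,
      ← AddChar.map_add_eq_mul]
  have := finrank_of_datum ρ hirr Dz (fun j => lam j.2.2) X Nn (ρ (Nn (β / 2, -α / 2)) v0)
    (rep_ne_zero ρ _ hv0) ?_ ?_ ?_ ?_ _ Dz_Nn ?_
  · rw [this, Fintype.card_prod, sq]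
  · intro j
    rw [← rep_mul_apply, Dz_Nn, rep_mul_apply, hD, map_smul]
    congr 2
    simp only
    field_simp
    ring
  · intro l j
    exact ⟨(j.1, j.2.1 - 2 * l.1 * j.1, j.2.2),
      by ext <;> simp only [mul_def, Dz, X] <;> ring, rfl⟩
  · intro l l'
    exact ⟨0, by ext <;> simp only [mul_def, Dz, X, Prod.fst_zero, Prod.snd_zero] <;> ring,
      by simp⟩
  · intro g
    exact ⟨(g.a, g.b), (g.t, g.c), (g.e, g.d - 2 * g.t * g.e, g.z - g.a * g.d + g.b * g.e),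
      by ext <;> simp only [mul_def, Dz, X, Nn] <;> ring⟩
  · intro i i' hii
    by_cases h1 : i.1 = i'.1
    · have h2' : i.2 ≠ i'.2 := fun h => hii (Prod.ext h1 h)
      obtain ⟨x, hx⟩ := exists_ne_of_ne lam hlam
        (a := 2 * i.2) (b := 2 * i'.2) (fun h => h2' (mul_left_cancel₀ h2 h))
      exact ⟨(x, 0, 0), by simpa using hx⟩
    · obtain ⟨x, hx⟩ := exists_ne_of_ne lam hlam
        (a := -(2 * i.1)) (b := -(2 * i'.1))
        (fun h => h1 (mul_left_cancel₀ h2 (neg_inj.1 h)))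
      exact ⟨(0, x, 0), by simpa using hx⟩

theorem exists_weight (ψ : AddChar K ℂ) (hψ : ψ ≠ 1) (ρ : Representation ℂ (OG K) V)
    [Nontrivial V] (hz : ∀ z x, ρ (Zz z) x = x) :
    ∃ (v : V) (l0 l1 l2 l3 : K), v ≠ 0 ∧ ∀ j : (K × K × K × K) × K, ρ (Hh j) v =
      ψ (l0 * j.1.1 + l1 * j.1.2.1 + l2 * j.1.2.2.1 + l3 * j.1.2.2.2) • v := by
  obtain ⟨v0, hv0, μ, hμ⟩ := exists_eigen_addChar ρ (fun w : K × K × K × K => Hh (w, 0)) rfl
    (fun a b x => by
      have e : Hh (a, 0) * Hh (b, 0) = Hh (a + b, 0) * Zz ((a.1 * b.2.2.2 - a.2.2.2 * b.1)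
          - (a.2.1 * b.2.2.1 - a.2.2.1 * b.2.1)) := by
        ext <;> simp only [mul_def, Hh, Zz, Prod.fst_add, Prod.snd_add] <;> ring
      rw [← rep_mul_apply, e, rep_mul_apply, hz])
  obtain ⟨l0, l1, l2, l3, hc⟩ := exists_coords4 ψ hψ μ
  refine ⟨v0, l0, l1, l2, l3, hv0, fun j => ?_⟩
  have e : Hh j = Hh (j.1, 0) * Zz j.2 := by
    ext <;> simp only [mul_def, Hh, Zz] <;> ring
  rw [e, rep_mul_apply, hz, hμ, hc]

theorem finrank_top (h2 : (2 : K) ≠ 0) (ψ : AddChar K ℂ) (hψ : ψ ≠ 1)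
    (ρ : Representation ℂ (OG K) V) (hirr : Irr ρ) (v : V) (l0 l1 l2 l3 : K) (hv : v ≠ 0)
    (hw : ∀ j : (K × K × K × K) × K, ρ (Hh j) v =
      ψ (l0 * j.1.1 + l1 * j.1.2.1 + l2 * j.1.2.2.1 + l3 * j.1.2.2.2) • v) (h3 : l3 ≠ 0) :
    finrank ℂ V = Fintype.card K ^ 2 := by
  have := finrank_of_datum ρ hirr Hh _ (fun _ : Unit => 1) X v hv hw ?_ ?_ ?_ _
    (fun i j => Hh_X j i) ?_
  · rw [this, Fintype.card_prod, sq]
  · intro l j
    exact ⟨j, by simp, rfl⟩
  · intro l l'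
    exact ⟨0, (mul_one _).symm, by simp⟩
  · intro g
    exact ⟨_, (), _, by rw [one_mul]; exact dec g⟩
  · intro i i' hii
    by_cases h1 : i.1 = i'.1
    · have h2' : i.2 ≠ i'.2 := fun h => hii (Prod.ext h1 h)
      obtain ⟨x, hx⟩ := exists_scale_ne ψ hψ
        (a := l0 - 2 * i.1 * l1 + 2 * i.1 ^ 2 * l2 - i.2 * l3)
        (b := l0 - 2 * i'.1 * l1 + 2 * i'.1 ^ 2 * l2 - i'.2 * l3)
        (fun h => h2' (mul_right_cancel₀ h3 (by rw [h1] at h; linear_combination -h)))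
      refine ⟨((x, 0, 0, 0), 0), ?_⟩
      simp only [ui]
      convert hx using 2 <;> ring
    · obtain ⟨x, hx⟩ := exists_scale_ne ψ hψ
        (a := l2 - 2 * i.1 * l3) (b := l2 - 2 * i'.1 * l3)
        (fun h => h1 (mul_right_cancel₀ (mul_ne_zero h2 h3) (by linear_combination -h)))
      refine ⟨((0, 0, x, 0), 0), ?_⟩
      simp only [ui]
      convert hx using 2 <;> ring

theorem finrank_mid (h2 : (2 : K) ≠ 0) (ψ : AddChar K ℂ) (hψ : ψ ≠ 1)
    (ρ : Representation ℂ (OG K) V) (hirr : Irr ρ) (v : V) (l0 l1 l2 : K) (hv : v ≠ 0)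
    (hw : ∀ j : (K × K × K × K) × K, ρ (Hh j) v =
      ψ (l0 * j.1.1 + l1 * j.1.2.1 + l2 * j.1.2.2.1 + 0 * j.1.2.2.2) • v)
    (h12 : l1 ≠ 0 ∨ l2 ≠ 0) : finrank ℂ V = Fintype.card K := by
  refine finrank_of_datum ρ hirr Hh _ (fun c : K => X (0, c)) (fun t : K => X (t, 0)) v hv hw
    ?_ ?_ ?_ _ (fun i j => Hh_X j (i, 0)) ?_
  · intro l j
    refine ⟨_, Hh_X j (0, l), ?_⟩
    simp only [ui]
    congr 1
    ring
  · intro l l'
    exact ⟨0, by rw [X_comm]; exact (mul_one _).symm, by simp⟩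
  · intro g
    refine ⟨g.t, g.c, (ui (g.t, g.c) (g.a, g.b, g.e, g.d), g.z), ?_⟩
    ext <;> simp only [mul_def, Hh, X, ui] <;> ring
  · intro i i' hii
    by_cases h1 : l2 = 0
    · have hl1 : l1 ≠ 0 := h12.resolve_right (not_not.2 h1)
      obtain ⟨x, hx⟩ := exists_scale_ne ψ hψ (a := l0 - 2 * i * l1) (b := l0 - 2 * i' * l1)
        (fun h => hii (mul_right_cancel₀ (mul_ne_zero h2 hl1) (by linear_combination -h)))
      refine ⟨((x, 0, 0, 0), 0), ?_⟩
      simp only [ui, h1]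
      convert hx using 2 <;> ring
    · obtain ⟨x, hx⟩ := exists_scale_ne ψ hψ (a := l1 - 2 * i * l2) (b := l1 - 2 * i' * l2)
        (fun h => hii (mul_right_cancel₀ (mul_ne_zero h2 h1) (by linear_combination -h)))
      refine ⟨((0, x, 0, 0), 0), ?_⟩
      simp only [ui]
      convert hx using 2 <;> ring

omit [Fintype K] in
theorem finrank_bot (ψ : AddChar K ℂ)
    (ρ : Representation ℂ (OG K) V) (hirr : Irr ρ) (v : V) (l0 : K) (hv : v ≠ 0)
    (hw : ∀ j : (K × K × K × K) × K, ρ (Hh j) v =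
      ψ (l0 * j.1.1 + 0 * j.1.2.1 + 0 * j.1.2.2.1 + 0 * j.1.2.2.2) • v) :
    finrank ℂ V = 1 := by
  have := finrank_of_datum ρ hirr Hh _ X (fun _ : Unit => 1) v hv hw
    ?_ ?_ ?_ (fun _ j => j) (fun i j => by simp) ?_
  · simpa using this
  · intro l j
    refine ⟨_, Hh_X j l, ?_⟩
    simp only [ui]
    congr 1
    ring
  · intro l l'
    exact ⟨0, by rw [X_comm]; exact (mul_one _).symm, by simp⟩
  · intro g
    exact ⟨(), _, _, by rw [one_mul]; exact dec g⟩
  · intro i i' hii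
    exact absurd rfl hii

end Reps

/-- The character degrees of `OG K`. -/
theorem dims_OG {K : Type} [Field K] [Fintype K] (h2 : (2 : K) ≠ 0) :
    dims (OG K) = {1, Fintype.card K, Fintype.card K ^ 2} := by
  obtain ⟨ψ, hψ1⟩ := (AddChar.exists_apply_ne_zero (a := (1 : K))).2 one_ne_zero
  have hψ : ψ ≠ 1 := fun h => hψ1 (by simp [h])
  ext n
  simp only [Set.mem_insert_iff, Set.mem_singleton_iff]
  constructor
  · rintro ⟨V, _, _, _, ρ, hnt, hirr, rfl⟩
    obtain ⟨lam, hlam⟩ := exists_central ρ hirr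
    by_cases h : lam = 1
    · obtain ⟨v, l0, l1, l2, l3, hv, hw⟩ := exists_weight ψ hψ ρ
        (fun z x => by rw [hlam, h]; simp)
      by_cases h3 : l3 = 0
      · subst h3
        by_cases h12 : l1 ≠ 0 ∨ l2 ≠ 0
        · exact Or.inr (Or.inl (finrank_mid h2 ψ hψ ρ hirr v l0 l1 l2 hv hw h12))
        · push Not at h12
          obtain ⟨rfl, rfl⟩ := h12
          exact Or.inl (finrank_bot ψ ρ hirr v l0 hv hw)
      · exact Or.inr (Or.inr (finrank_top h2 ψ hψ ρ hirr v l0 l1 l2 l3 hv hw h3))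
    · exact Or.inr (Or.inr (finrank_big h2 ρ hirr lam h hlam))
  · rintro (rfl | rfl | rfl)
    · exact one_mem_dims _
    · obtain ⟨W, σ, hnt, hirr, hσ⟩ := exists_irr_scalar (G := OG K) Dz (fun j => ψ j.1)
        (fun x => ψ x.e) (addChar_apply_ne_zero ψ _)
        (fun j x => by
          rw [← AddChar.map_add_eq_mul]
          congr 1
          simp only [mul_def, Dz]
          ring)
        (fun g j => ⟨(j.1, j.2.1 - 2 * g.t * j.1, j.2.2 + (2 * g.b * j.1 - 2 * g.a * j.2.1)),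
          by ext <;> simp only [mul_def, Dz] <;> ring, rfl⟩)
      refine ⟨W, inferInstance, inferInstance, inferInstance, σ, hnt, hirr, ?_⟩
      obtain ⟨v, l0, l1, l2, l3, hv, hw⟩ := exists_weight ψ hψ σ
        (fun z x => (hσ (0, 0, z) x).trans (by simp))
      have key : ∀ e d : K, ψ (l2 * e + l3 * d) = ψ e := by
        intro e d
        have a1 := hw ((0, 0, e, d), 0)
        have a2 : σ (Hh ((0, 0, e, d), 0)) v = ψ e • v := hσ (e, d, 0) v
        rw [a2] at a1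
        have a3 := smul_left_injective ℂ hv a1
        simpa using a3.symm
      have h3 : l3 = 0 := by
        by_contra h
        obtain ⟨x, hx⟩ := exists_ne_of_ne ψ hψ h
        exact hx (by simpa using key 0 x)
      have hl2 : l2 ≠ 0 := by
        intro h
        have := key 1 0
        rw [h] at this
        exact hψ1 (by simpa using this.symm)
      subst h3
      exact finrank_mid h2 ψ hψ σ hirr v l0 l1 l2 hv hw (Or.inr hl2)
    · obtain ⟨W, σ, hnt, hirr, hσ⟩ := exists_irr_scalar (G := OG K) Zz (fun j => ψ j)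
        (fun x => ψ x.z) (addChar_apply_ne_zero ψ _)
        (fun j x => by
          rw [← AddChar.map_add_eq_mul]
          congr 1
          simp only [mul_def, Zz]
          ring)
        (fun g j => ⟨j, by ext <;> simp only [mul_def, Zz] <;> ring, rfl⟩)
      exact ⟨W, inferInstance, inferInstance, inferInstance, σ, hnt, hirr,
        finrank_big h2 σ hirr ψ hψ hσ⟩

open scoped commutatorElement in
/-- The second derived subgroup of `OG K` is nontrivial. -/
theorem derived_OG {K : Type} [Field K] (h2 : (2 : K) ≠ 0) : derivedSeries (OG K) 2 ≠ ⊥ := by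
  intro h
  have m1 : ∀ g g' : OG K, ⁅g, g'⁆ ∈ derivedSeries (OG K) 1 := by
    intro g g'
    rw [derivedSeries_succ, derivedSeries_zero]
    exact Subgroup.commutator_mem_commutator (Subgroup.mem_top g) (Subgroup.mem_top g')
  have m2 : ⁅⁅X ((1 : K), (0 : K)), Nn ((1 : K), (0 : K))⁆,
      ⁅X ((1 : K), (0 : K)), Nn ((0 : K), (1 : K))⁆⁆ ∈ derivedSeries (OG K) 2 := by
    rw [derivedSeries_succ]
    exact Subgroup.commutator_mem_commutator (m1 _ _) (m1 _ _)
  rw [h, Subgroup.mem_bot] at m2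
  have hz := congrArg OG.z m2
  simp only [commutatorElement_def, mul_def, inv_def, one_def, X, Nn] at hz
  have h8 : (2 : K) * 2 * 2 = 0 := by linear_combination (-1 : K) * hz
  exact mul_ne_zero (mul_ne_zero h2 h2) h2 h8

end OG

end Pool.Agent.Lib.MP_6441f0_al
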