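import Mathlib
import Pool.Agent.Lib.MP_6441f0_al.RepBasic

/-!
The group `GG K` is the semidirect product of the Heisenberg group on the binary cubic forms
`K^4` with the additive group of `K` acting by translations.  For a finite field `K` of
characteristic at least five it is a Sylow subgroup of the Chevalley group of type G2 over `K`.
We determine the dimensions of its irreducible complex representations.
-/

set_option autoImplicit false

namespace Pool.Agent.Lib.MP_6441f0_al

open Module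

/-- The underlying type: six coordinates. -/
@[ext] structure GG (K : Type) where
  t : K
  a : K
  b : K
  c : K
  d : K
  z : K

section Grp

variable {K : Type} [CommRing K]

instance : Mul (GG K) := ⟨fun x y =>
  ⟨x.t + y.t, x.a + y.a, x.b + (y.b + x.t * y.a),
    x.c + (y.c + 2 * x.t * y.b + x.t ^ 2 * y.a),
    x.d + (y.d + 3 * x.t * y.c + 3 * x.t ^ 2 * y.b + x.t ^ 3 * y.a),
    x.z + y.z + ((x.a * (y.d + 3 * x.t * y.c + 3 * x.t ^ 2 * y.b + x.t ^ 3 * y.a) - x.d * y.a)
      - 3 * (x.b * (y.c + 2 * x.t * y.b + x.t ^ 2 * y.a) - x.c * (y.b + x.t * y.a)))⟩⟩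

instance : One (GG K) := ⟨⟨0, 0, 0, 0, 0, 0⟩⟩

instance : Inv (GG K) := ⟨fun x =>
  ⟨-x.t, -x.a, -(x.b - x.t * x.a), -(x.c - 2 * x.t * x.b + x.t ^ 2 * x.a),
    -(x.d - 3 * x.t * x.c + 3 * x.t ^ 2 * x.b - x.t ^ 3 * x.a), -x.z⟩⟩

theorem GG.mul_def (x y : GG K) : x * y =
  ⟨x.t + y.t, x.a + y.a, x.b + (y.b + x.t * y.a),
    x.c + (y.c + 2 * x.t * y.b + x.t ^ 2 * y.a),
    x.d + (y.d + 3 * x.t * y.c + 3 * x.t ^ 2 * y.b + x.t ^ 3 * y.a),
    x.z + y.z + ((x.a * (y.d + 3 * x.t * y.c + 3 * x.t ^ 2 * y.b + x.t ^ 3 * y.a) - x.d * y.a)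
      - 3 * (x.b * (y.c + 2 * x.t * y.b + x.t ^ 2 * y.a) - x.c * (y.b + x.t * y.a)))⟩ := rfl

theorem GG.one_def : (1 : GG K) = ⟨0, 0, 0, 0, 0, 0⟩ := rfl

theorem GG.inv_def (x : GG K) : x⁻¹ =
  ⟨-x.t, -x.a, -(x.b - x.t * x.a), -(x.c - 2 * x.t * x.b + x.t ^ 2 * x.a),
    -(x.d - 3 * x.t * x.c + 3 * x.t ^ 2 * x.b - x.t ^ 3 * x.a), -x.z⟩ := rfl

instance : Group (GG K) := Group.ofLeftAxioms
  (fun x y z => by ext <;> simp only [GG.mul_def] <;> ring)
  (fun x => by ext <;> simp only [GG.mul_def, GG.one_def] <;> ring)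
  (fun x => by ext <;> simp only [GG.mul_def, GG.one_def, GG.inv_def] <;> ring)

/-- Coordinates as an equivalence with a product. -/
def GG.equivProd : GG K ≃ K × K × K × K × K × K where
  toFun x := (x.t, x.a, x.b, x.c, x.d, x.z)
  invFun p := ⟨p.1, p.2.1, p.2.2.1, p.2.2.2.1, p.2.2.2.2.1, p.2.2.2.2.2⟩
  left_inv _ := rfl
  right_inv _ := rfl

instance [Finite K] : Finite (GG K) := Finite.of_equiv _ GG.equivProd.symm

theorem GG.card : Nat.card (GG K) = Nat.card K ^ 6 := by
  rw [Nat.card_congr GG.equivProd]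
  simp only [Nat.card_prod]
  ring

/-- One-parameter subgroup acting on the Heisenberg group. -/
def X1 (t : K) : GG K := ⟨t, 0, 0, 0, 0, 0⟩
/-- Coset representatives for the big case. -/
def Nn (a b : K) : GG K := ⟨0, a, b, 0, 0, 0⟩
/-- An isotropic subgroup. -/
def Dd (c d : K) : GG K := ⟨0, 0, 0, c, d, 0⟩
/-- The centre. -/
def Zz (z : K) : GG K := ⟨0, 0, 0, 0, 0, z⟩
/-- Lifts of the vectors. -/
def Ww (w : K × K × K × K) : GG K := ⟨0, w.1, w.2.1, w.2.2.1, w.2.2.2, 0⟩
/-- The translation action on cubic forms. -/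
def uu (t : K) (w : K × K × K × K) : K × K × K × K :=
  (w.1, w.2.1 + t * w.1, w.2.2.1 + 2 * t * w.2.1 + t ^ 2 * w.1,
    w.2.2.2 + 3 * t * w.2.2.1 + 3 * t ^ 2 * w.2.1 + t ^ 3 * w.1)

theorem Zz_comm (z : K) (g : GG K) : Zz z * g = g * Zz z := by
  ext <;> simp only [GG.mul_def, Zz] <;> ring

theorem Zz_add (z z' : K) : Zz (z + z') = Zz z * Zz z' := by
  ext <;> simp only [GG.mul_def, Zz] <;> ring

theorem Zz_zero : Zz (0 : K) = 1 := rfl

theorem Dd_add (c d c' d' : K) : Dd (c + c') (d + d') = Dd c d * Dd c' d' := by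
  ext <;> simp only [GG.mul_def, Dd] <;> ring

theorem Dd_zero : Dd (0 : K) 0 = 1 := rfl

theorem X1_comm (s t : K) : X1 s * X1 t = X1 t * X1 s := by
  ext <;> simp only [GG.mul_def, X1] <;> ring

theorem Dd_Nn (a b c d : K) :
    Dd c d * Nn a b = Nn a b * (Dd c d * Zz (6 * b * c - 2 * a * d)) := by
  ext <;> simp only [GG.mul_def, Dd, Nn, Zz] <;> ring

theorem Dd_X1 (c d t : K) : Dd c d * X1 t = X1 t * Dd c (d - 3 * t * c) := by
  ext <;> simp only [GG.mul_def, Dd, X1] <;> ring

theorem decomp1 (g : GG K) :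
    g = Nn g.a g.b * (Dd g.c g.d * (X1 g.t * Zz (g.z - g.a * g.d + 3 * g.b * g.c))) := by
  ext <;> simp only [GG.mul_def, Dd, X1, Nn, Zz] <;> ring

theorem Ww_mul (w w' : K × K × K × K) : Ww w * Ww w' = Ww (w + w') *
    Zz ((w.1 * w'.2.2.2 - w.2.2.2 * w'.1) - 3 * (w.2.1 * w'.2.2.1 - w.2.2.1 * w'.2.1)) := by
  ext <;> simp only [GG.mul_def, Ww, Zz, Prod.fst_add, Prod.snd_add] <;> ring

theorem Ww_zero : Ww (0 : K × K × K × K) = 1 := rfl

theorem Ww_X1 (w : K × K × K × K) (t : K) : Ww w * X1 t = X1 t * Ww (uu (-t) w) := by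
  ext <;> simp only [GG.mul_def, Ww, X1, uu] <;> ring

theorem decomp2 (g : GG K) :
    g = X1 g.t * (Ww (uu (-g.t) (g.a, g.b, g.c, g.d)) * Zz g.z) := by
  ext <;> simp only [GG.mul_def, Ww, X1, uu, Zz] <;> ring

theorem uu_uu (s t : K) (w : K × K × K × K) : uu s (uu t w) = uu (s + t) w := by
  ext <;> simp only [uu] <;> ring

theorem uu_zero (w : K × K × K × K) : uu 0 w = w := by
  ext <;> simp only [uu] <;> ring

end Grp

section Reps

variable {K : Type} [Field K] {V : Type} [AddCommGroup V] [Module ℂ V] [FiniteDimensional ℂ V]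

/-- The centre acts through an additive character. -/
theorem exists_central (ρ : Representation ℂ (GG K) V) [Nontrivial V] (hirr : Irr ρ) :
    ∃ lam : AddChar K ℂ, ∀ z x, ρ (Zz z) x = lam z • x := by
  obtain ⟨v, -, hv, χ, hχ⟩ := exists_common_eigenvector (fun z : K => ρ (Zz z)) ⊤ top_ne_bot
    (fun _ _ _ => Submodule.mem_top)
    (fun i j v _ => by rw [← rep_mul_apply, ← rep_mul_apply, Zz_comm])
  obtain ⟨lam, hlam⟩ := exists_addChar v hv (fun z : K => ρ (Zz z)) χ hχ
    (by simp [Zz_zero]) (fun a b => by simp only [Zz_add, rep_mul_apply])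
  let U : Submodule ℂ V :=
    { carrier := {x | ∀ z, ρ (Zz z) x = lam z • x}
      add_mem' := fun {x y} hx hy z => by rw [map_add, hx z, hy z, smul_add]
      zero_mem' := fun z => by simp
      smul_mem' := fun c x hx z => by rw [map_smul, hx z, smul_comm] }
  have hU : U = ⊤ := by
    refine (hirr U ?_).resolve_left ?_
    · intro g x hx z
      rw [← rep_mul_apply, Zz_comm, rep_mul_apply, hx z, map_smul]
    · intro h
      have : v ∈ U := fun z => by rw [hlam]; exact hχ z
      rw [h] at this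
      exact hv (by simpa using this)
  refine ⟨lam, fun z x => ?_⟩
  have : x ∈ U := hU ▸ Submodule.mem_top
  exact this z

/-- Nontrivial central character: the dimension is the square of the field size. -/
theorem finrank_big [Fintype K] (h2 : (2 : K) ≠ 0) (h3 : (3 : K) ≠ 0)
    (ρ : Representation ℂ (GG K) V) [Nontrivial V] (hirr : Irr ρ)
    (lam : AddChar K ℂ) (hlam : lam ≠ 1) (hz : ∀ z x, ρ (Zz z) x = lam z • x) :
    finrank ℂ V = Fintype.card K ^ 2 := by
  have h6 : (6 : K) ≠ 0 := by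
    have : (6 : K) = 2 * 3 := by norm_num
    rw [this]; exact mul_ne_zero h2 h3
  obtain ⟨v0, -, hv0, μ, hμ⟩ := exists_common_eigenvector (fun p : K × K => ρ (Dd p.1 p.2)) ⊤
    top_ne_bot (fun _ _ _ => Submodule.mem_top)
    (fun i j v _ => by
      rw [← rep_mul_apply, ← rep_mul_apply, ← Dd_add, ← Dd_add, add_comm i.1, add_comm i.2])
  obtain ⟨μ1, hμ1⟩ := exists_addChar v0 hv0 (fun c : K => ρ (Dd c 0)) (fun c => μ (c, 0))
    (fun c => hμ (c, 0)) (by simp [Dd_zero])
    (fun a b => by rw [← rep_mul_apply, ← Dd_add, add_zero])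
  obtain ⟨μ2, hμ2⟩ := exists_addChar v0 hv0 (fun d : K => ρ (Dd 0 d)) (fun d => μ (0, d))
    (fun d => hμ (0, d)) (by simp [Dd_zero])
    (fun a b => by rw [← rep_mul_apply, ← Dd_add, add_zero])
  obtain ⟨α, hα⟩ := exists_mulShift lam hlam μ1
  obtain ⟨β, hβ⟩ := exists_mulShift lam hlam μ2
  have hD0 : ∀ c d, ρ (Dd c d) v0 = lam (α * c + β * d) • v0 := by
    intro c d
    have e : Dd c d = Dd c 0 * Dd 0 d := by rw [← Dd_add, add_zero, zero_add]
    have e1 : ρ (Dd c 0) v0 = lam (α * c) • v0 := by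
      rw [← hα, hμ1]; exact hμ (c, 0)
    have e2 : ρ (Dd 0 d) v0 = lam (β * d) • v0 := by
      rw [← hβ, hμ2]; exact hμ (0, d)
    rw [e, rep_mul_apply, e2, map_smul, e1, smul_smul, AddChar.map_add_eq_mul, mul_comm]
  let U : Submodule ℂ V :=
    { carrier := {x | ∀ c d, ρ (Dd c d) x = x}
      add_mem' := fun {x y} hx hy c d => by rw [map_add, hx c d, hy c d]
      zero_mem' := fun c d => by simp
      smul_mem' := fun e x hx c d => by rw [map_smul, hx c d] }
  have hU0 : U ≠ ⊥ := by
    intro h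
    have hmem : ρ (Nn (β / 2) (-α / 6)) v0 ∈ U := by
      intro c d
      rw [← rep_mul_apply, Dd_Nn, rep_mul_apply, rep_mul_apply, hz, map_smul, hD0, smul_smul,
        ← AddChar.map_add_eq_mul]
      have : 6 * (-α / 6) * c - 2 * (β / 2) * d + (α * c + β * d) = 0 := by
        field_simp
        ring
      rw [this, AddChar.map_zero_eq_one, one_smul]
    rw [h] at hmem
    exact rep_ne_zero ρ _ hv0 (by simpa using hmem)
  obtain ⟨v, hvU, hv, η, hη⟩ := exists_common_eigenvector (fun t : K => ρ (X1 t)) U hU0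
    (fun t x hx c d => by rw [← rep_mul_apply, Dd_X1, rep_mul_apply, hx])
    (fun i j v _ => by rw [← rep_mul_apply, ← rep_mul_apply, X1_comm])
  have hfin := finrank_eq_card_of_monomial ρ hirr v hv (fun p : K × K => Nn p.1 p.2) ?_ ?_
  · rw [hfin, Fintype.card_prod, sq]
  · intro g
    refine ⟨(g.a, g.b), lam (g.z - g.a * g.d + 3 * g.b * g.c) * η g.t, ?_⟩
    conv_lhs => rw [decomp1 g]
    rw [rep_mul_apply, rep_mul_apply, rep_mul_apply, hz, map_smul, hη, smul_smul, map_smul,
      hvU, map_smul]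
  · refine linearIndependent_of_eigen (fun p : K × K => ρ (Dd p.1 p.2)) _
      (fun p => rep_ne_zero ρ _ hv) (fun p r => lam (6 * p.2 * r.1 - 2 * p.1 * r.2)) ?_ ?_
    · intro p r
      rw [← rep_mul_apply, Dd_Nn, rep_mul_apply, rep_mul_apply, hz, map_smul, hvU, map_smul]
    · intro p p' hpp
      by_cases h1 : p.1 = p'.1
      · have h2' : p.2 ≠ p'.2 := fun h => hpp (Prod.ext h1 h)
        obtain ⟨x, hx⟩ := exists_ne_of_ne lam hlam
          (a := 6 * p.2) (b := 6 * p'.2) (fun h => h2' (mul_left_cancel₀ h6 h))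
        exact ⟨(x, 0), by simpa using hx⟩
      · obtain ⟨x, hx⟩ := exists_ne_of_ne lam hlam
          (a := -(2 * p.1)) (b := -(2 * p'.1))
          (fun h => h1 (mul_left_cancel₀ h2 (neg_inj.1 h)))
        exact ⟨(0, x), by simpa using hx⟩

/-- Trivial central character: the dimension is one or the field size. -/
theorem finrank_small [Fintype K] (h2 : (2 : K) ≠ 0) (h3 : (3 : K) ≠ 0)
    (ρ : Representation ℂ (GG K) V) [Nontrivial V] (hirr : Irr ρ)
    (hz : ∀ z x, ρ (Zz z) x = x) :
    (finrank ℂ V = 1 ∧ ∃ v : V, v ≠ 0 ∧ ∀ d, ρ (Dd 0 d) v = v) ∨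
      finrank ℂ V = Fintype.card K := by
  have hWadd : ∀ w w' x, ρ (Ww (w + w')) x = ρ (Ww w) (ρ (Ww w') x) := by
    intro w w' x
    rw [← rep_mul_apply, Ww_mul, rep_mul_apply, hz]
  obtain ⟨v0, -, hv0, χ, hχ⟩ := exists_common_eigenvector
    (fun w : K × K × K × K => ρ (Ww w)) ⊤
    top_ne_bot (fun _ _ _ => Submodule.mem_top)
    (fun i j v _ => by rw [← hWadd, ← hWadd, add_comm])
  obtain ⟨μ, hμ⟩ := exists_addChar v0 hv0 (fun w : K × K × K × K => ρ (Ww w)) χ hχ
    (by simp [Ww_zero]) (fun a b => hWadd a b v0)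
  have hμ0 : ∀ w, ρ (Ww w) v0 = μ w • v0 := fun w => by rw [hμ]; exact hχ w
  by_cases h : ∀ b c d, μ (0, b, c, d) = 1
  · left
    have hinv : ∀ t w, μ (uu t w) = μ w := by
      intro t w
      have e : uu t w = w + (0, t * w.1, 2 * t * w.2.1 + t ^ 2 * w.1,
          3 * t * w.2.2.1 + 3 * t ^ 2 * w.2.1 + t ^ 3 * w.1) := by
        ext <;> simp only [uu, Prod.fst_add, Prod.snd_add] <;> ring
      rw [e, AddChar.map_add_eq_mul, h, mul_one]
    let U : Submodule ℂ V :=
      { carrier := {x | ∀ w, ρ (Ww w) x = μ w • x}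
        add_mem' := fun {x y} hx hy w => by rw [map_add, hx w, hy w, smul_add]
        zero_mem' := fun w => by simp
        smul_mem' := fun e x hx w => by rw [map_smul, hx w, smul_comm] }
    have hU0 : U ≠ ⊥ := by
      intro h'
      have hmem : v0 ∈ U := hμ0
      rw [h'] at hmem
      exact hv0 (by simpa using hmem)
    obtain ⟨v, hvU, hv, η, hη⟩ := exists_common_eigenvector (fun t : K => ρ (X1 t)) U hU0
      (fun t x hx w => by rw [← rep_mul_apply, Ww_X1, rep_mul_apply, hx, hinv, map_smul])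
      (fun i j v _ => by rw [← rep_mul_apply, ← rep_mul_apply, X1_comm])
    refine ⟨?_, v, hv, fun d => ?_⟩
    · have hfin := finrank_eq_card_of_monomial ρ hirr v hv (fun _ : Unit => (1 : GG K)) ?_ ?_
      · simpa using hfin
      · intro g
        refine ⟨(), μ (uu (-g.t) (g.a, g.b, g.c, g.d)) * η g.t, ?_⟩
        conv_lhs => rw [decomp2 g]
        rw [rep_mul_apply, rep_mul_apply, hz, hvU, map_smul, hη, smul_smul]
        simp
      · rw [linearIndependent_unique_iff]
        simpa using hv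
    · have := hvU (0, 0, 0, d)
      rw [h, one_smul] at this
      exact this
  · right
    refine finrank_eq_card_of_monomial ρ hirr v0 hv0 (fun t : K => X1 t) ?_ ?_
    · intro g
      refine ⟨g.t, μ (uu (-g.t) (g.a, g.b, g.c, g.d)), ?_⟩
      conv_lhs => rw [decomp2 g]
      rw [rep_mul_apply, rep_mul_apply, hz, hμ0, map_smul]
    · refine linearIndependent_of_eigen (fun w : K × K × K × K => ρ (Ww w)) _
        (fun p => rep_ne_zero ρ _ hv0) (fun t w => μ (uu (-t) w)) ?_ ?_
      · intro t w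
        rw [← rep_mul_apply, Ww_X1, rep_mul_apply, hμ0, map_smul]
      · intro t t' htt
        by_contra hcon
        push Not at hcon
        apply h
        intro b c d
        have hs : t - t' ≠ 0 := sub_ne_zero.2 htt
        set s := t - t' with hsdef
        have key : ∀ w0, μ (uu s w0) = μ w0 := by
          intro w0
          have := hcon (uu t w0)
          rw [uu_uu, uu_uu, neg_add_cancel, uu_zero] at this
          rw [this]
          congr 2
          rw [hsdef]; ring
        let a0 : K := b / s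
        let b0 : K := (c - s ^ 2 * a0) / (2 * s)
        let c0 : K := (d - 3 * s ^ 2 * b0 - s ^ 3 * a0) / (3 * s)
        have e : uu s (a0, b0, c0, 0) = (a0, b0, c0, 0) + (0, b, c, d) := by
          have ha : s * a0 = b := by simp only [a0]; field_simp
          have hb : 2 * s * b0 = c - s ^ 2 * a0 := by simp only [b0]; field_simp
          have hc : 3 * s * c0 = d - 3 * s ^ 2 * b0 - s ^ 3 * a0 := by
            simp only [c0]; field_simp
          ext
          · simp [uu]
          · simp only [uu, Prod.fst_add, Prod.snd_add]; rw [ha]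
          · simp only [uu, Prod.fst_add, Prod.snd_add]; linear_combination hb
          · simp only [uu, Prod.fst_add, Prod.snd_add]; linear_combination hc
        have k := key (a0, b0, c0, 0)
        rw [e, AddChar.map_add_eq_mul] at k
        have hne : μ (a0, b0, c0, 0) ≠ 0 := by
          intro h0
          have := μ.map_add_eq_mul (a0, b0, c0, 0) (-(a0, b0, c0, 0))
          rw [add_neg_cancel, AddChar.map_zero_eq_one, h0, zero_mul] at this
          exact one_ne_zero this
        exact mul_left_cancel₀ hne (by rw [k, mul_one])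

end Reps

section Existence

variable {K : Type} [Field K]

/-- The right regular representation on functions. -/
def regRep : Representation ℂ (GG K) (GG K → ℂ) where
  toFun g := LinearMap.funLeft ℂ ℂ (fun x => x * g)
  map_one' := by ext f x; simp
  map_mul' g h := by ext f x; simp [mul_assoc]

theorem regRep_apply (g : GG K) (f : GG K → ℂ) (x : GG K) : regRep g f x = f (x * g) := rfl

theorem addChar_ne_zero {A : Type} [AddCommGroup A] (ψ : AddChar A ℂ) (a : A) : ψ a ≠ 0 := by
  intro h0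
  have := ψ.map_add_eq_mul a (-a)
  rw [add_neg_cancel, AddChar.map_zero_eq_one, h0, zero_mul] at this
  exact one_ne_zero this

theorem exists_rep_big [Finite K] (ψ : AddChar K ℂ) :
    ∃ (W : Submodule ℂ (GG K → ℂ)) (σ : Representation ℂ (GG K) W), Nontrivial W ∧ Irr σ ∧
      ∀ z x, σ (Zz z) x = ψ z • x := by
  let U : Submodule ℂ (GG K → ℂ) :=
    { carrier := {x | ∀ z, regRep (Zz z) x = ψ z • x}
      add_mem' := fun {x y} hx hy z => by rw [map_add, hx z, hy z, smul_add]
      zero_mem' := fun z => by simp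
      smul_mem' := fun c x hx z => by rw [map_smul, hx z, smul_comm] }
  have hU0 : U ≠ ⊥ := by
    intro h
    have hmem : (fun x : GG K => ψ x.z) ∈ U := by
      intro z
      ext x
      rw [regRep_apply, Pi.smul_apply, smul_eq_mul, ← AddChar.map_add_eq_mul]
      congr 1
      simp only [GG.mul_def, Zz]
      ring
    rw [h] at hmem
    have := congrFun ((Submodule.mem_bot ℂ).1 hmem) 1
    exact addChar_ne_zero ψ _ this
  obtain ⟨W, σ, hWU, hnt, hirr, hσ⟩ := exists_irr_sub regRep U hU0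
    (fun g x hx z => by rw [← rep_mul_apply, Zz_comm, rep_mul_apply, hx z, map_smul])
  refine ⟨W, σ, hnt, hirr, fun z x => Subtype.ext ?_⟩
  rw [hσ]
  exact hWU x.2 z

theorem exists_rep_mid [Finite K] (ψ : AddChar K ℂ) :
    ∃ (W : Submodule ℂ (GG K → ℂ)) (σ : Representation ℂ (GG K) W), Nontrivial W ∧ Irr σ ∧
      ∀ d z x, σ (Dd 0 d * Zz z) x = ψ d • x := by
  let U : Submodule ℂ (GG K → ℂ) :=
    { carrier := {x | ∀ d z, regRep (Dd 0 d * Zz z) x = ψ d • x}
      add_mem' := fun {x y} hx hy d z => by rw [map_add, hx d z, hy d z, smul_add]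
      zero_mem' := fun d z => by simp
      smul_mem' := fun c x hx d z => by rw [map_smul, hx d z, smul_comm] }
  have hU0 : U ≠ ⊥ := by
    intro h
    have hmem : (fun x : GG K => ψ x.d) ∈ U := by
      intro d z
      ext x
      rw [regRep_apply, Pi.smul_apply, smul_eq_mul, ← AddChar.map_add_eq_mul]
      congr 1
      simp only [GG.mul_def, Zz, Dd]
      ring
    rw [h] at hmem
    have := congrFun ((Submodule.mem_bot ℂ).1 hmem) 1
    exact addChar_ne_zero ψ _ this
  have hconj : ∀ (g : GG K) (d z : K),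
      (Dd 0 d * Zz z) * g = g * (Dd 0 d * Zz (z - 2 * g.a * d)) := by
    intro g d z
    ext <;> simp only [GG.mul_def, Zz, Dd] <;> ring
  obtain ⟨W, σ, hWU, hnt, hirr, hσ⟩ := exists_irr_sub regRep U hU0
    (fun g x hx d z => by rw [← rep_mul_apply, hconj, rep_mul_apply, hx d, map_smul])
  refine ⟨W, σ, hnt, hirr, fun d z x => Subtype.ext ?_⟩
  rw [hσ]
  exact hWU x.2 d z

end Existence

/-- The set of dimensions of the irreducible complex representations of `GG K`. -/
theorem degrees_GG {K : Type} [Field K] [Fintype K] (h2 : (2 : K) ≠ 0) (h3 : (3 : K) ≠ 0) :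
    {n : ℕ | ∃ (V : Type) (_ : AddCommGroup V) (_ : Module ℂ V)
              (_ : FiniteDimensional ℂ V) (ρ : Representation ℂ (GG K) V),
              Nontrivial V ∧
              (∀ W : Submodule ℂ V, (∀ g : GG K, ∀ v ∈ W, ρ g v ∈ W) → W = ⊥ ∨ W = ⊤) ∧
              Module.finrank ℂ V = n} = {1, Fintype.card K, Fintype.card K ^ 2} := by
  obtain ⟨ψ, hψ1⟩ := (AddChar.exists_apply_ne_zero (a := (1 : K))).2 one_ne_zero
  have hψ : ψ ≠ 1 := fun h => hψ1 (by simp [h])
  ext n
  simp only [Set.mem_ofPred_eq, Set.mem_insert_iff, Set.mem_singleton_iff]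
  constructor
  · rintro ⟨V, _, _, _, ρ, hnt, hirr, rfl⟩
    obtain ⟨lam, hlam⟩ := exists_central ρ hirr
    by_cases h : lam = 1
    · rcases finrank_small h2 h3 ρ hirr (fun z x => by rw [hlam, h]; simp) with h' | h'
      · exact Or.inl h'.1
      · exact Or.inr (Or.inl h')
    · exact Or.inr (Or.inr (finrank_big h2 h3 ρ hirr lam h hlam))
  · rintro (rfl | rfl | rfl)
    · exact ⟨ℂ, inferInstance, inferInstance, inferInstance, 1, inferInstance,
        fun W _ => eq_bot_or_eq_top W, by simp⟩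
    · obtain ⟨W, σ, hnt, hirr, hσ⟩ := exists_rep_mid ψ
      refine ⟨W, inferInstance, inferInstance, inferInstance, σ, hnt, hirr, ?_⟩
      have hz : ∀ z x, σ (Zz z) x = x := by
        intro z x
        have := hσ 0 z x
        rwa [Dd_zero, one_mul, AddChar.map_zero_eq_one, one_smul] at this
      rcases finrank_small h2 h3 σ hirr hz with ⟨-, v, hv, hD⟩ | h'
      · exfalso
        have := hσ 1 0 v
        rw [Zz_zero, mul_one, hD] at this
        have h5 : (v : GG K → ℂ) = ψ 1 • (v : GG K → ℂ) := congrArg Subtype.val this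
        have h4 : (ψ 1 - 1) • (v : GG K → ℂ) = 0 := by rw [sub_smul, ← h5, one_smul, sub_self]
        exact hψ1 (sub_eq_zero.1 ((smul_eq_zero.1 h4).resolve_right
          (fun h0 => hv (Subtype.ext h0))))
      · exact h'
    · obtain ⟨W, σ, hnt, hirr, hσ⟩ := exists_rep_big ψ
      exact ⟨W, inferInstance, inferInstance, inferInstance, σ, hnt, hirr,
        finrank_big h2 h3 σ hirr ψ hψ hσ⟩

open scoped commutatorElement in
/-- The group `GG K` is not metabelian. -/
theorem derived_GG {K : Type} [Field K] (h2 : (2 : K) ≠ 0) (h3 : (3 : K) ≠ 0) :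
    derivedSeries (GG K) 2 ≠ ⊥ := by
  intro h
  have m1 : ∀ g g' : GG K, ⁅g, g'⁆ ∈ derivedSeries (GG K) 1 := by
    intro g g'
    rw [derivedSeries_succ, derivedSeries_zero]
    exact Subgroup.commutator_mem_commutator (Subgroup.mem_top g) (Subgroup.mem_top g')
  have m2 : ⁅⁅X1 (1 : K), Nn (1 : K) 0⁆, ⁅X1 (1 : K), Nn (0 : K) 1⁆⁆ ∈ derivedSeries (GG K) 2 := by
    rw [derivedSeries_succ]
    exact Subgroup.commutator_mem_commutator (m1 _ _) (m1 _ _)
  rw [h, Subgroup.mem_bot] at m2
  have hz := congrArg GG.z m2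
  simp only [commutatorElement_def, GG.mul_def, GG.inv_def, GG.one_def, X1, Nn] at hz
  have h12 : (2 : K) * 2 * 3 = 0 := by linear_combination (-1 : K) * hz
  exact mul_ne_zero (mul_ne_zero h2 h2) h3 h12

end Pool.Agent.Lib.MP_6441f0_al
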